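import Pool.Agent.SPR.St2

/-!
# SPR / Sgn2: small sign rank
-/

set_option autoImplicit false

namespace Pool.Agent.SPR

open Finset Pool.Agent.RIG

/-- a nontrivial relation with a negative coefficient -/
private theorem Sgn2_rel {D e : ℕ} (h : e < D) (w : Fin D → Fin e → ℝ) :
    ∃ l : Fin D → ℝ, (∀ j, ∑ i, l i * w i j = 0) ∧ ∃ i, l i < 0 := by
  have h1 : ¬ LinearIndependent ℝ w := by
    intro hli
    have h2 := hli.fintype_card_le_finrank
    rw [Fintype.card_fin, Module.finrank_fintype_fun_eq_card, Fintype.card_fin] at h2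
    omega
  obtain ⟨l, hl, i, hi⟩ := Fintype.not_linearIndependent_iff.1 h1
  have hl' : ∀ j, ∑ i, l i * w i j = 0 := by
    intro j
    have h3 := congrFun hl j
    rw [Finset.sum_apply] at h3
    exact h3
  rcases lt_or_gt_of_ne hi with h4 | h4
  · exact ⟨l, hl', i, h4⟩
  · refine ⟨fun i => -l i, fun j => ?_, i, by simpa using h4⟩
    have h5 : ∑ i, -l i * w i j = -∑ i, l i * w i j := by
      rw [← Finset.sum_neg_distrib]
      exact Finset.sum_congr rfl fun i _ => by ring
    rw [h5, hl' j, neg_zero]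

/-- Matrices of sign rank at most `e` shatter at most `e` rows. -/
theorem sgn2_le {n s : ℕ} (p m D e : ℕ) (C : Circuit n s) (h : Fin s → Fin n → ZMod m)
    (x : Fin n → Fin e → ℝ) (y : Fin s → Fin e → ℝ) (hm : 2 ≤ m)
    (hxy : ∀ g v, (∃ M, C.Special p g M) → h g v = if 0 ≤ ∑ j, y g j * x v j then 1 else 0)
    (hsh : Shat p C m h D) : D ≤ e := by
  classical
  obtain ⟨g, a, hsp, hS⟩ := hsh
  by_contra hlt
  have : Fact (1 < m) := ⟨by omega⟩
  have h01 : (0 : ZMod m) ≠ 1 := zero_ne_one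
  obtain ⟨l, hl, i₀, hi₀⟩ := Sgn2_rel (not_le.1 hlt) fun i => y (g i)
  obtain ⟨vu, hvu⟩ := hS univ
  obtain ⟨v, hv⟩ := hS (univ.filter fun i => 0 ≤ l i ↔ (1 : ZMod m) = a i)
  have hkey : ∀ i, 0 ≤ ∑ j, y (g i) j * x v j ↔ 0 ≤ l i := by
    intro i
    have h1 := hv i
    rw [mem_filter, and_iff_right (mem_univ i), hxy (g i) v (hsp i)] at h1
    have h2 := hvu i
    rw [iff_true_right (mem_univ i), hxy (g i) vu (hsp i)] at h2
    by_cases h3 : (1 : ZMod m) = a i
    · have h4 : (0 : ZMod m) ≠ a i := fun h' => h01 (h'.trans h3.symm)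
      by_cases h5 : 0 ≤ ∑ j, y (g i) j * x v j
      · rw [if_pos h5] at h1
        tauto
      · rw [if_neg h5] at h1
        tauto
    · have h4 : (0 : ZMod m) = a i := by
        by_cases h5 : 0 ≤ ∑ j, y (g i) j * x vu j
        · rw [if_pos h5] at h2
          exact absurd h2 h3
        · rw [if_neg h5] at h2
          exact h2
      by_cases h5 : 0 ≤ ∑ j, y (g i) j * x v j
      · rw [if_pos h5] at h1
        tauto
      · rw [if_neg h5] at h1
        tauto
  have hsum : ∑ i, l i * ∑ j, y (g i) j * x v j = 0 := by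
    have e1 : ∑ i, l i * ∑ j, y (g i) j * x v j = ∑ j, (∑ i, l i * y (g i) j) * x v j := by
      simp only [mul_sum, sum_mul]
      rw [sum_comm]
      apply sum_congr rfl
      intro j _
      apply sum_congr rfl
      intro i _
      ring
    rw [e1]
    apply sum_eq_zero
    intro j _
    rw [hl j, zero_mul]
  have hpos : 0 < ∑ i, l i * ∑ j, y (g i) j * x v j := by
    apply sum_pos'
    · intro i _
      by_cases h6 : 0 ≤ l i
      · exact mul_nonneg h6 ((hkey i).2 h6)
      · have h7 : ¬ 0 ≤ ∑ j, y (g i) j * x v j := fun h' => h6 ((hkey i).1 h')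
        exact (mul_pos_of_neg_of_neg (not_le.1 h6) (not_le.1 h7)).le
    · refine ⟨i₀, mem_univ _, ?_⟩
      have h7 : ¬ 0 ≤ ∑ j, y (g i₀) j * x v j := fun h' => absurd ((hkey i₀).1 h') (not_le.2 hi₀)
      exact mul_pos_of_neg_of_neg hi₀ (not_le.1 h7)
  exact absurd hsum hpos.ne'

end Pool.Agent.SPR
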