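import Pool.Agent.SPR.St

/-!
# SPR, module SAM: sampling
-/

set_option autoImplicit false

namespace Pool.Agent.SPR

open Finset

private theorem Sam_pow {G : Type} [Fintype G] (a : G → ℝ) (T : ℕ) :
    (∑ g, a g) ^ T = ∑ p : Fin T → G, ∏ i, a (p i) := by
  classical
  have h := Finset.prod_univ_sum (fun _ : Fin T => (univ : Finset G)) fun _ g => a g
  rw [Finset.prod_const, Finset.card_univ, Fintype.card_fin, Fintype.piFinset_univ] at h
  exact h

theorem thm_Sam : St_Sam := by
  classical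
  intro G E _ _ μ Z δ T hμ h1 hδ hE
  by_contra hcon
  push Not at hcon
  have hno : ∀ g : Fin T → G, (∀ i, 0 < μ (g i)) → ∃ e, ∀ i, ¬ Z e (g i) := by
    intro g hg
    exact hcon g hg
  have hbad : ∀ e, ∑ g, (if Z e g then 0 else μ g) ≤ Real.exp (-δ) := by
    intro e
    have h2 : ∑ g, (if Z e g then 0 else μ g) + ∑ g, (if Z e g then μ g else 0) = 1 := by
      rw [← Finset.sum_add_distrib, ← h1]
      refine Finset.sum_congr rfl fun g _ => ?_
      split_ifs
      · exact zero_add _
      · exact add_zero _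
    have h3 := hδ e
    have h4 := Real.add_one_le_exp (-δ)
    linarith
  have hbad0 : ∀ e, 0 ≤ ∑ g, (if Z e g then 0 else μ g) := by
    intro e
    refine Finset.sum_nonneg fun g _ => ?_
    split_ifs
    · exact le_rfl
    · exact hμ g
  have hkey : (1 : ℝ) ≤ ∑ e, (∑ g, (if Z e g then 0 else μ g)) ^ T := by
    have h2 : (1 : ℝ) = ∑ p : Fin T → G, ∏ i, μ (p i) := by
      rw [← Sam_pow, h1, one_pow]
    rw [h2, Finset.sum_congr rfl fun e _ => Sam_pow (fun g => if Z e g then 0 else μ g) T,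
      Finset.sum_comm]
    refine Finset.sum_le_sum fun p _ => ?_
    have hnn : ∀ e, 0 ≤ ∏ i, (if Z e (p i) then 0 else μ (p i)) := by
      intro e
      refine Finset.prod_nonneg fun i _ => ?_
      split_ifs
      · exact le_rfl
      · exact hμ _
    by_cases hp : ∀ i, 0 < μ (p i)
    · obtain ⟨e, he⟩ := hno p hp
      have h3 : ∏ i, μ (p i) = ∏ i, (if Z e (p i) then 0 else μ (p i)) :=
        Finset.prod_congr rfl fun i _ => (if_neg (he i)).symm
      rw [h3]
      exact Finset.single_le_sum (f := fun e => ∏ i, (if Z e (p i) then 0 else μ (p i)))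
        (fun e _ => hnn e) (mem_univ e)
    · push Not at hp
      obtain ⟨i, hi⟩ := hp
      have h3 : μ (p i) = 0 := le_antisymm hi (hμ _)
      rw [Finset.prod_eq_zero (mem_univ i) h3]
      exact Finset.sum_nonneg fun e _ => hnn e
  have h5 : ∑ e, (∑ g, (if Z e g then 0 else μ g)) ^ T ≤ (Fintype.card E : ℝ) *
      Real.exp (-δ) ^ T := by
    have h6 : ∑ e, (∑ g, (if Z e g then 0 else μ g)) ^ T ≤ ∑ _e : E, Real.exp (-δ) ^ T :=
      Finset.sum_le_sum fun e _ => pow_le_pow_left₀ (hbad0 e) (hbad e) T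
    rw [Finset.sum_const, Finset.card_univ, nsmul_eq_mul] at h6
    exact h6
  have h7 : Real.exp (-δ) ^ T = (Real.exp (δ * T))⁻¹ := by
    rw [← Real.exp_nat_mul, ← Real.exp_neg]
    congr 1
    ring
  rw [h7] at h5
  have h8 : (Fintype.card E : ℝ) * (Real.exp (δ * T))⁻¹ < 1 := by
    rw [← div_eq_mul_inv, div_lt_one (Real.exp_pos _)]
    exact hE
  linarith

end Pool.Agent.SPR
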