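import Pool.Agent.SPR.St

/-!
# SPR, module SAU: Sauer and Shelah for vectors over `ZMod m`
-/

set_option autoImplicit false

namespace Pool.Agent.SPR

open Finset Pool.Agent.RIG

private theorem Sau_choose (N D : ℕ) : ∑ k ∈ Finset.range (D + 1), N.choose k ≤ (N + 1) ^ D := by
  rw [add_pow]
  refine Finset.sum_le_sum fun k hk => ?_
  have hk' : k ≤ D := Nat.lt_succ_iff.1 (Finset.mem_range.1 hk)
  have h1 : N.choose k ≤ N ^ k := Nat.choose_le_pow N k
  have h2 : 1 ≤ D.choose k := Nat.choose_pos hk'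
  calc N.choose k ≤ N ^ k := h1
    _ = N ^ k * 1 ^ (D - k) * 1 := by rw [one_pow, mul_one, mul_one]
    _ ≤ N ^ k * 1 ^ (D - k) * (D.choose k : ℕ) := Nat.mul_le_mul_left _ h2

theorem thm_Sau : St_Sau := by
  classical
  intro V A T m D c hm hinj hno
  have : NeZero m := ⟨by omega⟩
  let F : V → Finset (Fin T × ZMod m) := fun v => univ.filter fun q => c v q.1 = q.2
  have hF : ∀ v q, q ∈ F v ↔ c v q.1 = q.2 := fun v q => by
    simp only [F, mem_filter, mem_univ, true_and]
  have hFinj : Set.InjOn F A := by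
    intro v hv v' hv' h
    by_contra hne
    refine hinj v hv v' hv' hne (funext fun i => ?_)
    have h1 : (i, c v i) ∈ F v := (hF v _).2 rfl
    rw [h] at h1
    exact ((hF v' _).1 h1).symm
  have hcard : (A.image F).card = A.card := Finset.card_image_of_injOn hFinj
  have hvc : (A.image F).vcDim ≤ D := by
    refine Finset.sup_le fun s hs => ?_
    rw [mem_shatterer] at hs
    by_contra hlt
    obtain ⟨s', hs', hcs⟩ := Finset.exists_subset_card_eq (Nat.succ_le_of_lt (not_le.1 hlt))
    have hsh : (A.image F).Shatters s' := hs.mono_right hs'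
    let e : Fin (D + 1) ≃ s' := (Fintype.equivFinOfCardEq (by rw [Fintype.card_coe, hcs])).symm
    obtain ⟨S, hS⟩ := hno (fun j => (e j).1.1) (fun j => (e j).1.2)
    have ht : S.image (fun j => (e j).1) ⊆ s' := by
      intro q hq
      obtain ⟨j, _, rfl⟩ := Finset.mem_image.1 hq
      exact (e j).2
    obtain ⟨u, hu, hsu⟩ := hsh ht
    obtain ⟨v, hv, rfl⟩ := Finset.mem_image.1 hu
    refine hS v hv fun j => ?_
    have h1 : c v (e j).1.1 = (e j).1.2 ↔ (e j).1 ∈ F v := (hF v _).symm
    rw [h1]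
    have h2 : (e j).1 ∈ F v ↔ (e j).1 ∈ s' ∩ F v :=
      ⟨fun h => Finset.mem_inter.2 ⟨(e j).2, h⟩, fun h => (Finset.mem_inter.1 h).2⟩
    rw [h2, hsu, Finset.mem_image]
    constructor
    · rintro ⟨j', hj', h⟩
      rwa [e.injective (Subtype.ext h)] at hj'
    · exact fun h => ⟨j, h, rfl⟩
  have hX : Fintype.card (Fin T × ZMod m) = T * m := by
    rw [Fintype.card_prod, Fintype.card_fin, ZMod.card]
  calc A.card = (A.image F).card := hcard.symm
    _ ≤ (A.image F).shatterer.card := card_le_card_shatterer _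
    _ ≤ ∑ k ∈ Finset.Iic (A.image F).vcDim, (Fintype.card (Fin T × ZMod m)).choose k :=
        card_shatterer_le_sum_vcDim
    _ ≤ ∑ k ∈ Finset.range (D + 1), (T * m).choose k := by
        rw [hX]
        refine Finset.sum_le_sum_of_subset fun k hk => ?_
        rw [Finset.mem_range]
        exact Nat.lt_succ_of_le (le_trans (Finset.mem_Iic.1 hk) hvc)
    _ ≤ (T * m + 1) ^ D := Sau_choose _ _

end Pool.Agent.SPR
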