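import Pool.Agent.SPR.St5

/-!
# SPR / Cor5: VC dimension and sign rank
-/

set_option autoImplicit false

namespace Pool.Agent.SPR

open Finset Pool.Agent.RIG

/-- the number of values which `T` gates see -/
private theorem Cor5_values (hSau : St_Sau) {n s N m T D : ℕ} (p : ℕ) (C : Circuit n s)
    (κ : Fin n → Fin N) (h : Fin s → Fin n → ZMod m) (g : Fin T → Fin s) (hm : 1 ≤ m)
    (hg : ∀ i, ∃ M, C.Special p (g i) M) (hD : ¬ Shattered p C m h (D + 1)) :
    (open scoped Classical in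
      ((univ : Finset (Fin n)).image fun v => (κ v, fun i : Fin T => h (g i) v)).card) ≤
      N * (T * m + 1) ^ D := by
  classical
  set A := (univ : Finset (Fin n)).image fun v => fun i : Fin T => h (g i) v with hA
  have h1 : A.card ≤ (T * m + 1) ^ D := by
    refine hSau (Fin T → ZMod m) A T m D (fun w => w) hm (fun v _ v' _ hne => hne) ?_
    intro i a
    by_contra hcon
    push Not at hcon
    apply hD
    refine ⟨fun j => g (i j), a, fun j => hg (i j), fun S => ?_⟩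
    obtain ⟨w, hw, hw2⟩ := hcon S
    rw [hA, mem_image] at hw
    obtain ⟨v, -, hv⟩ := hw
    refine ⟨v, fun j => ?_⟩
    rw [← hw2 j, ← hv]
  have h2 : ((univ : Finset (Fin n)).image fun v => (κ v, fun i : Fin T => h (g i) v)) ⊆
      (univ : Finset (Fin N)) ×ˢ A := by
    intro x hx
    rw [mem_image] at hx
    obtain ⟨v, -, rfl⟩ := hx
    rw [mem_product]
    exact ⟨mem_univ _, mem_image_of_mem _ (mem_univ v)⟩
  have h3 := card_le_card h2
  rw [card_product, card_univ, Fintype.card_fin] at h3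
  exact h3.trans (Nat.mul_le_mul_left _ h1)

/-- the numbers: `c = m Λ`, `Y₁ = (K₁ c)^K₁`, `Y = (K c)^K` -/
private theorem Cor5_num (K₁ m : ℕ) (Λ : ℝ) (hm : 2 ≤ m) (hΛ : 0.69 < Λ) :
    1 ≤ ((K₁ + 16 : ℕ) * m * Λ) ^ (K₁ + 1) ∧
    (K₁ * m * Λ) ^ K₁ ≤ ((K₁ + 16 : ℕ) * m * Λ) ^ (K₁ + 1) ∧
    16 ≤ ((K₁ + 16 : ℕ) * m * Λ) ∧ (m : ℝ) ≤ (K₁ + 16 : ℕ) * m * Λ ∧
    2 * Λ + 1 ≤ (K₁ + 16 : ℕ) * m * Λ := by
  have hmR : (2 : ℝ) ≤ m := by exact_mod_cast hm
  have hm0 : (0 : ℝ) ≤ m := by linarith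
  have hΛ0 : 0 ≤ Λ := by linarith
  have hmΛ : 0.69 * m ≤ m * Λ := by
    have := mul_le_mul_of_nonneg_left hΛ.le hm0
    linarith
  have h2Λ : 2 * Λ ≤ m * Λ := mul_le_mul_of_nonneg_right hmR hΛ0
  have hK : (16 : ℝ) ≤ (K₁ + 16 : ℕ) := by
    push_cast
    have : (0 : ℝ) ≤ K₁ := Nat.cast_nonneg _
    linarith
  have hb1 : 16 * (m * Λ) ≤ (K₁ + 16 : ℕ) * m * Λ := by
    rw [mul_assoc]
    exact mul_le_mul_of_nonneg_right hK (by positivity)
  have hb16 : 16 ≤ ((K₁ + 16 : ℕ) : ℝ) * m * Λ := by linarith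
  have hle : (K₁ : ℝ) * m * Λ ≤ (K₁ + 16 : ℕ) * m * Λ := by
    rw [mul_assoc, mul_assoc]
    apply mul_le_mul_of_nonneg_right _ (by positivity)
    push_cast
    linarith
  refine ⟨one_le_pow₀ (by linarith), ?_, hb16, by linarith, by linarith⟩
  refine (pow_le_pow_left₀ (by positivity) hle K₁).trans ?_
  exact pow_le_pow_right₀ (by linarith) (by omega)

/-- **COR5.** -/
theorem thm_Cor5 (hDis : St_Dis5) (hSau : St_Sau) : St_Cor5 := by
  classical
  intro p d hp
  obtain ⟨K₁, hK₁⟩ := hDis p d hp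
  refine ⟨2 * K₁ + 16, ?_⟩
  intro n s m r f N D C κ R h hm hd hMaj hSp hn hdec hD
  have hs : 1 ≤ s := C.out.pos
  have hsR : (1 : ℝ) ≤ s := by exact_mod_cast hs
  have hnR : (1 : ℝ) ≤ n := by exact_mod_cast hn
  have hmR : (2 : ℝ) ≤ m := by exact_mod_cast hm
  have hfR : (0 : ℝ) ≤ f := Nat.cast_nonneg f
  have hrR : (0 : ℝ) ≤ r := Nat.cast_nonneg r
  have hN : 1 ≤ N := (κ ⟨0, hn⟩).pos
  have hNR : (1 : ℝ) ≤ N := by exact_mod_cast hN
  have hl2 : (0.69 : ℝ) < Real.log 2 := by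
    have := Real.log_two_gt_d9
    linarith
  obtain ⟨Λ, hΛ⟩ : ∃ Λ : ℝ, Λ = Real.log (s + n) := ⟨_, rfl⟩
  have hΛ2 : 0.69 < Λ := by
    rw [hΛ]
    exact hl2.trans_le (Real.log_le_log (by norm_num) (by linarith))
  have hlg0 : 0 ≤ Real.logb 2 s := Real.logb_nonneg (by norm_num) hsR
  have hlg : Real.logb 2 s ≤ 2 * Λ := by
    have h1 : Real.log s ≤ Λ := by
      rw [hΛ]
      exact Real.log_le_log (by linarith) (by linarith)
    rw [Real.logb, div_le_iff₀ (by linarith)]
    have h2 := mul_le_mul_of_nonneg_left hl2.le (show 0 ≤ 2 * Λ by linarith)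
    linarith
  obtain ⟨Y₁, hY₁⟩ : ∃ Y : ℝ, Y = (K₁ * m * Λ) ^ K₁ := ⟨_, rfl⟩
  obtain ⟨β, hβ⟩ : ∃ β : ℝ, β = (K₁ + 16 : ℕ) * m * Λ := ⟨_, rfl⟩
  obtain ⟨h1Y, hYY, hβ16, hmβ, hΛβ⟩ := Cor5_num K₁ m Λ hm hΛ2
  rw [← hβ] at h1Y hYY hβ16 hmβ hΛβ
  rw [← hY₁] at hYY
  have hβ0 : 0 < β := by linarith
  have hβ1 : 1 ≤ β := by linarith
  obtain ⟨y, hy⟩ : ∃ y : ℝ, y = β ^ (K₁ + 1) := ⟨_, rfl⟩
  rw [← hy] at h1Y hYY
  have hy0 : 0 < y := by linarith
  have hY₁0 : 0 ≤ Y₁ := by
    rw [hY₁]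
    positivity
  obtain ⟨Y, hY⟩ : ∃ Y : ℝ, Y = ((2 * K₁ + 16 : ℕ) * m * Λ) ^ (2 * K₁ + 16) := ⟨_, rfl⟩
  have hYbig : y * y * β ^ 14 ≤ Y := by
    have e : y * y * β ^ 14 = β ^ (2 * K₁ + 16) := by
      rw [hy]
      ring
    rw [e, hY]
    apply pow_le_pow_left₀ hβ0.le
    rw [hβ, mul_assoc, mul_assoc]
    apply mul_le_mul_of_nonneg_right _ (by positivity)
    push_cast
    have : (0 : ℝ) ≤ K₁ := Nat.cast_nonneg _
    linarith
  have hβy : β ≤ y := by
    rw [hy]
    exact le_self_pow₀ hβ1 (by omega)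
  have hY0 : 0 < Y := lt_of_lt_of_le (by positivity) hYbig
  have hYge : ∀ a : ℝ, a ≤ y * y * β ^ 14 → a ≤ Y := fun a ha => ha.trans hYbig
  have hy1 : 1 ≤ y * y := by
    have := mul_le_mul h1Y h1Y (by norm_num) hy0.le
    linarith
  have hYβ14 : β ^ 14 ≤ y * y * β ^ 14 := le_mul_of_one_le_left (by positivity) hy1
  have hY1 : 1 ≤ Y := hYge 1 ((one_le_pow₀ hβ1).trans hYβ14)
  rw [← hΛ]
  have hP : 1 ≤ f + N * ((r + 1) * Y) ^ D := by
    have a1 : 1 ≤ ((r : ℝ) + 1) * Y := by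
      have := mul_le_mul (show (1 : ℝ) ≤ r + 1 by linarith) hY1 (by norm_num)
        (show (0 : ℝ) ≤ r + 1 by linarith)
      linarith
    have a2 : 1 ≤ (((r : ℝ) + 1) * Y) ^ D := one_le_pow₀ a1
    have a3 := mul_le_mul hNR a2 (by norm_num) (by linarith)
    linarith
  rw [← hY]
  -- few variables
  by_cases hsmall : (n : ℝ) < 64 * m * (r + 1) * y * (2 * Λ + 2)
  · have h1 : 64 * (m : ℝ) * (r + 1) * y * (2 * Λ + 2) ≤ (r + 1) * Y := by
      have h2 : 64 * (m : ℝ) * y * (2 * Λ + 2) ≤ Y := by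
        apply hYge
        have h3 : 2 * Λ + 2 ≤ β ^ 2 := by
          have := mul_le_mul_of_nonneg_right hβ16 hβ0.le
          rw [sq]
          linarith
        have h4 : 64 * (m : ℝ) ≤ β ^ 3 := by
          have h5 : 64 * (m : ℝ) ≤ 64 * β := by linarith
          have h6 : (256 : ℝ) ≤ β ^ 2 := by
            have := pow_le_pow_left₀ (by norm_num) hβ16 2
            linarith
          have h7 := mul_le_mul_of_nonneg_right h6 hβ0.le
          have e : β ^ 3 = β ^ 2 * β := by ring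
          rw [e]
          linarith
        calc 64 * (m : ℝ) * y * (2 * Λ + 2) ≤ β ^ 3 * y * β ^ 2 := by
              gcongr
          _ = y * β ^ 5 := by ring
          _ ≤ y * y * β ^ 14 := by
              have h8 : β ^ 5 ≤ β ^ 14 := pow_le_pow_right₀ hβ1 (by norm_num)
              have h9 : y ≤ y * y := le_mul_of_one_le_left hy0.le h1Y
              exact mul_le_mul h9 h8 (by positivity) (by positivity)
      calc 64 * (m : ℝ) * (r + 1) * y * (2 * Λ + 2) = (r + 1) * (64 * m * y * (2 * Λ + 2)) := by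
            ring
        _ ≤ (r + 1) * Y := mul_le_mul_of_nonneg_left h2 (by linarith)
    have h2 : ((r : ℝ) + 1) * Y * 1 ≤ (r + 1) * Y * (f + N * ((r + 1) * Y) ^ D) :=
      mul_le_mul_of_nonneg_left hP (by positivity)
    linarith
  rw [not_lt] at hsmall
  -- the choice of `z`
  obtain ⟨w, hw⟩ : ∃ w : ℝ, w = 32 * m * (r + 1) * y := ⟨_, rfl⟩
  have hw0 : 0 < w := by
    rw [hw]
    positivity
  have hnw : 4 * Λ + 4 ≤ n / w := by
    rw [le_div_iff₀ hw0, hw]
    linarith
  obtain ⟨z, hz⟩ : ∃ z : ℕ, z = ⌊(n : ℝ) / w⌋₊ := ⟨_, rfl⟩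
  have hz1 : (z : ℝ) ≤ n / w := by
    rw [hz]
    exact Nat.floor_le (by positivity)
  have hz2 : (n : ℝ) / w < z + 1 := by
    rw [hz]
    exact Nat.lt_floor_add_one _
  have hz3 : (n : ℝ) / w / 2 ≤ z := by linarith
  have hzpos : 1 ≤ z := by
    have : (0 : ℝ) < z := by linarith
    exact_mod_cast this
  have hw1 : 1 ≤ w := by
    rw [hw]
    have a1 : (1 : ℝ) ≤ (r + 1) * y := by
      have := mul_le_mul (show (1 : ℝ) ≤ r + 1 by linarith) h1Y (by norm_num)
        (show (0 : ℝ) ≤ r + 1 by linarith)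
      linarith
    have a2 : (1 : ℝ) * 1 ≤ (32 * m) * ((r + 1) * y) :=
      mul_le_mul (by linarith) a1 (by norm_num) (by linarith)
    linarith
  have hzn : z ≤ n := by
    have : (z : ℝ) ≤ n := hz1.trans (div_le_self (by linarith) hw1)
    exact_mod_cast this
  have hsz : Real.logb 2 s ≤ z := by linarith
  have hPB : C.PathBound p (fun _ => 8 * m * (0 + f + z)) (fun _ => 8 * m * (f + z) + 1) := by
    intro g
    refine ⟨Nat.le_add_left 1 _, fun h' _ => le_rfl, fun M' hg => ⟨?_, fun h' hh => ?_⟩⟩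
    · show 8 * m * (0 + f + z) + 1 ≤ 8 * m * (f + z) + 1
      rw [zero_add]
    · exact absurd ((hSp g M' hg).2 h') hh
  have hdis := hK₁ n s m r f N z C (fun _ => 0) (fun _ => 8 * m * (f + z) + 1) κ R h hm hd hMaj
    (fun g M' hg => by
      refine ⟨(hSp g M' hg).1, ?_⟩
      rw [Nat.le_zero, card_eq_zero, filter_eq_empty_iff]
      intro h' _
      rw [(hSp g M' hg).2 h']
      simp) hPB hn hzpos hzn hsz hdec
  rw [← hΛ, ← hY₁] at hdis
  rcases hdis with h1 | ⟨T, g, hT, hg, h1⟩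
  · -- large product: `n ≤ 16 m (r+1) y f`
    have h2 : (n : ℝ) ≤ (r + 1) * y * (8 * m * (f + z) + 1) := by
      refine h1.trans ?_
      push_cast
      apply mul_le_mul_of_nonneg_right _ (by positivity)
      exact mul_le_mul_of_nonneg_left hYY (by linarith)
    have h3 : ((r : ℝ) + 1) * y * (8 * m * z) ≤ n / 4 := by
      have h4 : ((r : ℝ) + 1) * y * (8 * m * z) = w / 4 * z := by
        rw [hw]
        ring
      rw [h4]
      have h5 := mul_le_mul_of_nonneg_left hz1 (show 0 ≤ w / 4 by positivity)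
      have h6 : w / 4 * ((n : ℝ) / w) = n / 4 := by field_simp
      linarith
    have h4 : ((r : ℝ) + 1) * y ≤ n / 4 := by
      have h5 : 4 * (((r : ℝ) + 1) * y) ≤ 64 * m * (r + 1) * y * (2 * Λ + 2) := by
        have a1 : (4 : ℝ) ≤ 64 * m * (2 * Λ + 2) := by
          have := mul_le_mul hmR (show (2 : ℝ) ≤ 2 * Λ + 2 by linarith) (by norm_num)
            (by linarith)
          linarith
        have a2 := mul_le_mul_of_nonneg_right a1 (show 0 ≤ ((r : ℝ) + 1) * y by positivity)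
        linarith
      linarith
    have h5 : (n : ℝ) ≤ (r + 1) * (16 * m * y) * f := by
      have e : ((r : ℝ) + 1) * y * (8 * m * (f + z) + 1) =
          (r + 1) * (8 * m * y) * f + (r + 1) * y * (8 * m * z) + (r + 1) * y := by ring
      rw [e] at h2
      linarith
    have h6 : 16 * (m : ℝ) * y ≤ Y := by
      apply hYge
      have h7 : 16 * (m : ℝ) ≤ β * β := mul_le_mul hβ16 hmβ (by linarith) hβ0.le
      calc 16 * (m : ℝ) * y ≤ β * β * y := mul_le_mul_of_nonneg_right h7 hy0.le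
        _ = y * β ^ 2 := by ring
        _ ≤ y * y * β ^ 14 := by
            have h8 : β ^ 2 ≤ β ^ 14 := pow_le_pow_right₀ hβ1 (by norm_num)
            have h9 : y ≤ y * y := le_mul_of_one_le_left hy0.le h1Y
            exact mul_le_mul h9 h8 (by positivity) (by positivity)
    have h7 : ((r : ℝ) + 1) * (16 * m * y) * f ≤ (r + 1) * Y * f := by
      apply mul_le_mul_of_nonneg_right _ hfR
      exact mul_le_mul_of_nonneg_left h6 (by linarith)
    have h8 : ((r : ℝ) + 1) * Y * f ≤ (r + 1) * (f + N * ((r + 1) * Y) ^ D) * Y := by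
      have h9 : 0 ≤ ((r : ℝ) + 1) * Y * (N * ((r + 1) * Y) ^ D) := by positivity
      linarith
    linarith
  · -- few values
    have hval := Cor5_values hSau p C κ h g (by omega) hg hD
    have hvalR : (((univ : Finset (Fin n)).image fun v =>
        (κ v, fun i : Fin T => h (g i) v)).card : ℝ) ≤ N * ((T : ℝ) * m + 1) ^ D := by
      refine le_trans (le_of_eq ?_) (le_trans (Nat.cast_le.2 hval) (le_of_eq ?_))
      · congr
      · push_cast
        ring
    have hTm : (T : ℝ) * m + 1 ≤ (r + 1) * Y := by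
      have h2 : (n : ℝ) / z ≤ 2 * w := by
        have hz0 : (0 : ℝ) < z := by exact_mod_cast hzpos
        rw [div_le_iff₀ hz0]
        have h3 := mul_le_mul_of_nonneg_left hz3 (show 0 ≤ 2 * w by positivity)
        have h4 : 2 * w * ((n : ℝ) / w / 2) = n := by field_simp
        linarith
      have h3 : (T : ℝ) ≤ y * (2 * w) := by
        refine hT.trans ?_
        rw [mul_div_assoc]
        exact mul_le_mul hYY h2 (by positivity) hy0.le
      have h4 : (T : ℝ) * m ≤ y * (2 * w) * m := mul_le_mul_of_nonneg_right h3 (by linarith)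
      have h5 : y * (2 * w) * m = (r + 1) * (64 * m * m * (y * y)) := by
        rw [hw]
        ring
      have h6 : 64 * (m : ℝ) * m * (y * y) + 1 ≤ Y := by
        apply hYge
        have h7 : 64 * (m : ℝ) * m + 1 ≤ β ^ 14 := by
          have a1 : (m : ℝ) * m ≤ β * β := mul_le_mul hmβ hmβ (by linarith) hβ0.le
          have a2 : (65 : ℝ) ≤ β ^ 12 := by
            have b1 : (16 : ℝ) ^ 2 ≤ β ^ 2 := pow_le_pow_left₀ (by norm_num) hβ16 2
            have b2 : β ^ 2 ≤ β ^ 12 := pow_le_pow_right₀ hβ1 (by norm_num)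
            linarith
          have a3 : (1 : ℝ) ≤ β * β := by
            have := mul_le_mul hβ1 hβ1 (by norm_num) hβ0.le
            linarith
          have a4 := mul_le_mul_of_nonneg_right a2 (show 0 ≤ β * β by positivity)
          have e : β ^ 14 = β ^ 12 * (β * β) := by ring
          rw [e]
          linarith
        have h8 := mul_le_mul_of_nonneg_left h7 (show 0 ≤ y * y by positivity)
        linarith
      have h7 : ((r : ℝ) + 1) * (64 * m * m * (y * y) + 1) ≤ (r + 1) * Y :=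
        mul_le_mul_of_nonneg_left h6 (by linarith)
      linarith
    have h2 : (((univ : Finset (Fin n)).image fun v =>
        (κ v, fun i : Fin T => h (g i) v)).card : ℝ) ≤ N * ((r + 1) * Y) ^ D := by
      refine hvalR.trans ?_
      apply mul_le_mul_of_nonneg_left _ (by linarith)
      exact pow_le_pow_left₀ (by positivity) hTm D
    have h3 : Y₁ ≤ Y := by
      apply hYge
      refine hYY.trans ?_
      have h9 : y ≤ y * y := le_mul_of_one_le_left hy0.le h1Y
      have h10 : (1 : ℝ) ≤ β ^ 14 := one_le_pow₀ hβ1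
      have := mul_le_mul h9 h10 (by norm_num) (by positivity)
      linarith
    have h4 : (n : ℝ) ≤ (r + 1) * Y₁ * (N * ((r + 1) * Y) ^ D) := by
      refine h1.trans ?_
      apply mul_le_mul_of_nonneg_left _ (by positivity)
      refine le_trans (le_of_eq ?_) h2
      congr
    have h5 : ((r : ℝ) + 1) * Y₁ * (N * ((r + 1) * Y) ^ D) ≤
        (r + 1) * Y * (N * ((r + 1) * Y) ^ D) := by
      apply mul_le_mul_of_nonneg_right _ (by positivity)
      exact mul_le_mul_of_nonneg_left h3 (by linarith)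
    have h6 : ((r : ℝ) + 1) * Y * (N * ((r + 1) * Y) ^ D) ≤
        (r + 1) * (f + N * ((r + 1) * Y) ^ D) * Y := by
      have h7 : 0 ≤ ((r : ℝ) + 1) * Y * f := by positivity
      linarith
    linarith

end Pool.Agent.SPR
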