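import Pool.Agent.SPR.St

/-!
# SPR / Fin: one constant for all parts
-/

set_option autoImplicit false

namespace Pool.Agent.SPR

open Finset Pool.Agent.RIG

/-- part 1 with the constant `K` -/
def Part1 (p d K : ℕ) : Prop :=
  ∀ (n s m r t : ℕ) (C : Circuit n s) (q F : Fin s → ℕ) (δ : ℝ),
    2 ≤ m → C.level C.out + 1 ≤ d → C.PathBound p (fun g => m * (q g + t)) F → C.Majority →
    (∀ g M, C.Special p g M → M = m ∧ (univ.filter fun h => (C.gw g h : ZMod m) ≠ 0).card ≤ q g) →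
    0 ≤ δ → Real.logb 2 s + δ * n / (m ^ 2 * r + 1 : ℕ) ≤ t →
    F C.out * ((m ^ 2 * r + 1 : ℕ) * (K * Real.log (s + n)) ^ K) < n →
    ∃ (μ : Fin s → ℝ) (U : Finset (Fin n)), (∀ g, 0 ≤ μ g) ∧ ∑ g, μ g = 1 ∧
      (∀ g, μ g ≠ 0 → ∃ M, C.Special p g M) ∧ n ≤ 2 * U.card ∧
      ∀ (W : Finset (Fin n)) (R : Fin r → Fin n → ZMod m), W ⊆ U → W.card = m ^ 2 * r + 1 →
        δ < ∑ g, (open scoped Classical in if InSpan C m W R g then 0 else μ g)

/-- parts 2 and 3 with the constant `K` -/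
def Part2 (p d K : ℕ) : Prop :=
  ∀ (n s m : ℕ) (C : Circuit n s), 2 ≤ m → C.level C.out + 1 ≤ d → C.Majority →
    (∀ g M, C.Special p g M → M = m ∧ ∀ h, C.gw g h = 0) → 1 ≤ n →
    (∃ D : ℕ, Shatters p C m D ∧ (n : ℝ) ≤ (K * m * Real.log (s + n)) ^ (K * (D + 1))) ∧
    ∀ (e : ℕ) (x : Fin n → Fin e → ℝ) (y : Fin s → Fin e → ℝ),
      (∀ g v, (∃ M, C.Special p g M) → C.vw g v = if 0 ≤ ∑ j, y g j * x v j then 1 else 0) →
      (n : ℝ) ≤ (K * m * Real.log (s + n)) ^ (K * (e + 1))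

/-- the block theorem with the constant `K` -/
def Part0 (p d K : ℕ) : Prop :=
  ∀ (n s m r k : ℕ) (C : Circuit n s) (f F : Fin s → ℕ)
    (W : Fin k → Finset (Fin n)) (R : Fin k → Fin r → Fin n → ZMod m), 2 ≤ m →
    C.level C.out + 1 ≤ d → C.PathBound p (fun g => m * f g) F → C.Majority →
    (∀ j, m ^ 2 * r < (W j).card) → (∀ i j, i ≠ j → Disjoint (W i) (W j)) →
    (∀ g M, C.Special p g M → M = m ∧ ∃ (J : Finset (Fin k)) (H : Finset (Fin s)),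
      J.card + H.card ≤ f g ∧ (∀ h, h ∉ H → (C.gw g h : ZMod m) = 0) ∧
      ∀ j, j ∉ J → ∃ a : Fin r → ZMod m, ∀ v ∈ W j, (C.vw g v : ZMod m) = ∑ i, a i * R j i v) →
    (k : ℝ) ≤ F C.out * (K * Real.log (s + n)) ^ K

private theorem Fin_log {n s : ℕ} (hs : 1 ≤ s) (hn : 1 ≤ n) : 0.69 < Real.log (s + n) := by
  have h1 : (1 : ℝ) ≤ s := by exact_mod_cast hs
  have h2 : (1 : ℝ) ≤ n := by exact_mod_cast hn
  have h3 := Real.log_two_gt_d9
  have h4 : Real.log 2 ≤ Real.log (s + n) := Real.log_le_log (by norm_num) (by linarith)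
  linarith

private theorem Fin_mono {K K' : ℕ} {Λ : ℝ} (h : K ≤ K') (h2 : 2 ≤ K') (hΛ : 0.69 < Λ) :
    (K * Λ) ^ K ≤ (K' * Λ) ^ K' := by
  have a0 : (K : ℝ) ≤ K' := by exact_mod_cast h
  have a1 : (2 : ℝ) ≤ K' := by exact_mod_cast h2
  have a2 : (K : ℝ) * Λ ≤ K' * Λ := mul_le_mul_of_nonneg_right a0 (by linarith)
  have a3 : (1 : ℝ) ≤ K' * Λ := by
    have := mul_le_mul_of_nonneg_right a1 (show 0 ≤ Λ by linarith)
    linarith
  refine (pow_le_pow_left₀ (mul_nonneg (Nat.cast_nonneg _) (by linarith)) a2 K).trans ?_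
  exact pow_le_pow_right₀ a3 h

private theorem Fin_one (p d : ℕ) {K K' : ℕ} (h : K ≤ K') (h2 : 2 ≤ K') (hK : Part1 p d K) :
    Part1 p d K' := by
  intro n s m r t C q F δ hm hd hPB hMaj hSp hδ ht hlt
  refine hK n s m r t C q F δ hm hd hPB hMaj hSp hδ ht (lt_of_le_of_lt ?_ hlt)
  have hs : 1 ≤ s := C.out.pos
  have hn : 1 ≤ n := by
    have hΛ0 : 0 ≤ Real.log (s + n) := by
      apply Real.log_nonneg
      have : (0 : ℝ) ≤ n := Nat.cast_nonneg n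
      have h1 : (1 : ℝ) ≤ s := by exact_mod_cast hs
      linarith
    have h1 : 0 ≤ F C.out * ((m ^ 2 * r + 1 : ℕ) * (K' * Real.log (s + n)) ^ K') := by
      positivity
    have h3 : (0 : ℝ) < n := lt_of_le_of_lt h1 hlt
    exact_mod_cast h3
  apply mul_le_mul_of_nonneg_left _ (Nat.cast_nonneg _)
  exact mul_le_mul_of_nonneg_left (Fin_mono h h2 (Fin_log hs hn)) (Nat.cast_nonneg _)

private theorem Fin_zero (p d : ℕ) {K K' : ℕ} (h : K ≤ K') (h2 : 2 ≤ K') (hK : Part0 p d K) :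
    Part0 p d K' := by
  intro n s m r k C f F W R hm hd hPB hMaj hW hdis hSp
  rcases Nat.eq_zero_or_pos k with h0 | h0
  · rw [h0]
    have hs : (1 : ℝ) ≤ s := by exact_mod_cast C.out.pos
    have hn : (0 : ℝ) ≤ n := Nat.cast_nonneg n
    have hΛ0 : 0 ≤ Real.log (s + n) := Real.log_nonneg (by linarith)
    rw [Nat.cast_zero]
    positivity
  · have hn : 1 ≤ n := by
      have h1 := (Nat.zero_le _).trans_lt (hW ⟨0, h0⟩)
      obtain ⟨v, _⟩ := card_pos.1 h1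
      exact v.pos
    refine (hK n s m r k C f F W R hm hd hPB hMaj hW hdis hSp).trans ?_
    exact mul_le_mul_of_nonneg_left (Fin_mono h h2 (Fin_log C.out.pos hn)) (Nat.cast_nonneg _)

private theorem Fin_pow {K K' m D D' : ℕ} {Λ : ℝ} (h : K ≤ K') (h2 : 2 ≤ K') (hm : 2 ≤ m)
    (hΛ : 0.69 < Λ) (hD : D ≤ D') :
    (K * m * Λ) ^ (K * (D + 1)) ≤ (K' * m * Λ) ^ (K' * (D' + 1)) := by
  have a0 : (K : ℝ) ≤ K' := by exact_mod_cast h
  have a1 : (2 : ℝ) ≤ K' := by exact_mod_cast h2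
  have am : (2 : ℝ) ≤ m := by exact_mod_cast hm
  have hmΛ : 0.69 ≤ m * Λ := by
    have := mul_le_mul_of_nonneg_right am (show 0 ≤ Λ by linarith)
    linarith
  have a2 : (K : ℝ) * m * Λ ≤ K' * m * Λ := by
    rw [mul_assoc, mul_assoc]
    exact mul_le_mul_of_nonneg_right a0 (by linarith)
  have a3 : (1 : ℝ) ≤ K' * m * Λ := by
    rw [mul_assoc]
    have := mul_le_mul_of_nonneg_right a1 (show 0 ≤ m * Λ by linarith)
    linarith
  have a4 : 0 ≤ (K : ℝ) * m * Λ := by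
    rw [mul_assoc]
    exact mul_nonneg (Nat.cast_nonneg _) (by linarith)
  refine (pow_le_pow_left₀ a4 a2 _).trans ?_
  exact pow_le_pow_right₀ a3 (Nat.mul_le_mul h (by omega))

/-- all parts with one constant -/
theorem fin_all (hLoc : St_LocP) (hSpr : St_Spr) (hVcd : St_Vcd) (hSgn : St_Sgn) (p d : ℕ)
    (hp : p.Prime) : ∃ K : ℕ, Part0 p d K ∧ Part1 p d K ∧ Part2 p d K := by
  obtain ⟨K₀, h₀⟩ := hLoc p d hp
  obtain ⟨K₁, h₁⟩ := hSpr p d hp
  obtain ⟨K₂, h₂⟩ := hVcd p d hp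
  refine ⟨K₀ + K₁ + K₂ + 2, Fin_zero p d (by omega) (by omega) h₀,
    Fin_one p d (by omega) (by omega) h₁, ?_⟩
  intro n s m C hm hd hMaj hSp hn
  have hΛ := Fin_log C.out.pos hn
  obtain ⟨D, hD1, hD2⟩ := h₂ n s m C hm hd hMaj hSp hn
  refine ⟨⟨D, hD1, hD2.trans (Fin_pow (by omega) (by omega) hm hΛ le_rfl)⟩, fun e x y hxy => ?_⟩
  exact hD2.trans (Fin_pow (by omega) (by omega) hm hΛ
    (hSgn n s p m D e C x y hm hxy hD1))

end Pool.Agent.SPR
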