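import Pool.Agent.SPR.Dis

/-!
# SPR / Fin4: one constant for both parts
-/

set_option autoImplicit false

namespace Pool.Agent.SPR

open Finset Pool.Agent.RIG

private theorem Fin4_log {n s : ℕ} (hs : 1 ≤ s) (hn : 1 ≤ n) : 0.69 < Real.log (s + n) := by
  have h1 : (1 : ℝ) ≤ s := by exact_mod_cast hs
  have h2 : (1 : ℝ) ≤ n := by exact_mod_cast hn
  have h3 := Real.log_two_gt_d9
  have h4 : Real.log 2 ≤ Real.log (s + n) := Real.log_le_log (by norm_num) (by linarith)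
  linarith

private theorem Fin4_mono {K K' : ℕ} {c : ℝ} (h : K ≤ K') (h2 : 2 ≤ K') (hc : 0.69 < c) :
    (K * c) ^ K ≤ (K' * c) ^ K' := by
  have a0 : (K : ℝ) ≤ K' := by exact_mod_cast h
  have a1 : (2 : ℝ) ≤ K' := by exact_mod_cast h2
  have a2 : (K : ℝ) * c ≤ K' * c := mul_le_mul_of_nonneg_right a0 (by linarith)
  have a3 : (1 : ℝ) ≤ K' * c := by
    have := mul_le_mul_of_nonneg_right a1 (show 0 ≤ c by linarith)
    linarith
  refine (pow_le_pow_left₀ (mul_nonneg (Nat.cast_nonneg _) (by linarith)) a2 K).trans ?_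
  exact pow_le_pow_right₀ a3 h

/-- both parts with one constant -/
theorem fin4_all (hDis : St_Dis) (hVcd : St_Vcd2) (p d : ℕ) (hp : p.Prime) : ∃ K : ℕ,
    ∀ (n s m r f : ℕ) (C : Circuit n s) (R : Fin r → Fin n → ZMod m) (h : Fin s → Fin n → ZMod m),
      2 ≤ m → 1 ≤ n → C.level C.out + 1 ≤ d → C.Majority → Decomposed p C m f R h →
      (∀ (q F : Fin s → ℕ) (z : ℕ), (∀ g M, C.Special p g M → M = m ∧
          (univ.filter fun h' => (C.gw g h' : ZMod m) ≠ 0).card ≤ q g) →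
        C.PathBound p (fun g => 8 * m * (q g + f + z)) F → 1 ≤ z → z ≤ n → Real.logb 2 s ≤ z →
        (n : ℝ) ≤ (r + 1) * (K * m * Real.log (s + n)) ^ K * F C.out ∨
        ∃ (T : ℕ) (g : Fin T → Fin s), (T : ℝ) ≤ (K * m * Real.log (s + n)) ^ K * n / z ∧
          (∀ i, ∃ M, C.Special p (g i) M) ∧
          (n : ℝ) ≤ (r + 1) * (K * m * Real.log (s + n)) ^ K *
            (open scoped Classical in
              ((univ : Finset (Fin n)).image fun v => fun i : Fin T => h (g i) v).card)) ∧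
      ∀ D : ℕ, (∀ g M, C.Special p g M → M = m ∧ ∀ h', C.gw g h' = 0) →
        (¬ Shat p C m h (D + 1) ∨ ∃ (x : Fin n → Fin D → ℝ) (y : Fin s → Fin D → ℝ),
          ∀ g v, (∃ M, C.Special p g M) → h g v = if 0 ≤ ∑ j, y g j * x v j then 1 else 0) →
        (n : ℝ) ≤ (r + 1) * (f + ((r + 1) * (K * m * Real.log (s + n)) ^ K) ^ D) *
          (K * m * Real.log (s + n)) ^ K := by
  obtain ⟨K₁, h₁⟩ := hDis p d hp
  obtain ⟨K₂, h₂⟩ := hVcd p d hp
  refine ⟨K₁ + K₂ + 2, ?_⟩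
  intro n s m r f C R h hm hn hd hMaj hdec
  have hΛ := Fin4_log C.out.pos hn
  have hmR : (2 : ℝ) ≤ m := by exact_mod_cast hm
  have hmΛ : 0.69 < m * Real.log (s + n) := by
    have := mul_le_mul_of_nonneg_right hmR (show 0 ≤ Real.log (s + n) by linarith)
    linarith
  have h51 := Fin4_mono (show K₁ ≤ K₁ + K₂ + 2 by omega) (by omega) hmΛ
  have h52 := Fin4_mono (show K₂ ≤ K₁ + K₂ + 2 by omega) (by omega) hmΛ
  simp only [← mul_assoc] at h51 h52
  have h61 : 0 ≤ ((K₁ : ℝ) * m * Real.log (s + n)) ^ K₁ := by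
    apply pow_nonneg
    rw [mul_assoc]
    exact mul_nonneg (Nat.cast_nonneg _) (by linarith)
  have h62 : 0 ≤ ((K₂ : ℝ) * m * Real.log (s + n)) ^ K₂ := by
    apply pow_nonneg
    rw [mul_assoc]
    exact mul_nonneg (Nat.cast_nonneg _) (by linarith)
  have hr : (0 : ℝ) ≤ (r : ℝ) + 1 := by positivity
  obtain ⟨Y₁, hY₁⟩ : ∃ Y : ℝ, Y = ((K₁ : ℝ) * m * Real.log (s + n)) ^ K₁ := ⟨_, rfl⟩
  obtain ⟨Y₂, hY₂⟩ : ∃ Y : ℝ, Y = ((K₂ : ℝ) * m * Real.log (s + n)) ^ K₂ := ⟨_, rfl⟩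
  obtain ⟨Y, hY⟩ : ∃ Y : ℝ,
    Y = ((K₁ + K₂ + 2 : ℕ) * m * Real.log (s + n)) ^ (K₁ + K₂ + 2) := ⟨_, rfl⟩
  have g₁ := h₁ n s m r f
  have g₂ := h₂ n s m r f
  rw [← hY₁, ← hY] at h51
  rw [← hY₂, ← hY] at h52
  rw [← hY₁] at h61
  rw [← hY₂] at h62
  simp only [← hY₁] at g₁
  simp only [← hY₂] at g₂
  simp only [← hY]
  refine ⟨fun q F z hSp hPB hz1 hzn hsz => ?_, fun D hSp hor => ?_⟩
  · rcases g₁ z C q F R h hm hd hMaj hSp hPB hn hz1 hzn hsz hdec with h7 | ⟨T, g, h7, h8, h9⟩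
    · left
      refine h7.trans (mul_le_mul_of_nonneg_right ?_ (Nat.cast_nonneg _))
      exact mul_le_mul_of_nonneg_left h51 hr
    · right
      refine ⟨T, g, h7.trans ?_, h8, h9.trans ?_⟩
      · rw [mul_div_assoc, mul_div_assoc]
        exact mul_le_mul_of_nonneg_right h51 (by positivity)
      · refine mul_le_mul_of_nonneg_right ?_ (Nat.cast_nonneg _)
        exact mul_le_mul_of_nonneg_left h51 hr
  · have hno : ¬ Shat p C m h (D + 1) := by
      rcases hor with h' | ⟨x, y, hxy⟩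
      · exact h'
      · intro hS
        have := sgn2_le p m (D + 1) D C h x y hm hxy hS
        omega
    refine (g₂ D C R h hm hd hMaj hSp hn hdec hno).trans ?_
    have h7 := h62.trans h52
    apply mul_le_mul _ h52 h62
    · positivity
    · apply mul_le_mul_of_nonneg_left _ hr
      have h8 := pow_le_pow_left₀ (mul_nonneg hr h62) (mul_le_mul_of_nonneg_left h52 hr) D
      linarith

end Pool.Agent.SPR
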