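import Pool.Agent.SPR.St

/-!
# SPR: a separated set of variables
-/

set_option autoImplicit false

namespace Pool.Agent.SPR

open Finset Pool.Agent.RIG

/-- the measure of the gates in which the coefficients of `v`, `v'` are different -/
private noncomputable def Pac_d {n s : ℕ} (m : ℕ) (C : Circuit n s) (μ : Fin s → ℝ)
    (v v' : Fin n) : ℝ :=
  ∑ g, if (C.vw g v : ZMod m) = C.vw g v' then 0 else μ g

private lemma Pac_self {n s : ℕ} (m : ℕ) (C : Circuit n s) (μ : Fin s → ℝ) (v : Fin n) :
    Pac_d m C μ v v = 0 := by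
  unfold Pac_d
  exact Finset.sum_eq_zero fun g _ => if_pos rfl

private lemma Pac_symm {n s : ℕ} (m : ℕ) (C : Circuit n s) (μ : Fin s → ℝ) (v v' : Fin n) :
    Pac_d m C μ v v' = Pac_d m C μ v' v := by
  unfold Pac_d
  refine Finset.sum_congr rfl fun g _ => ?_
  by_cases h : (C.vw g v : ZMod m) = C.vw g v'
  · rw [if_pos h, if_pos h.symm]
  · rw [if_neg h, if_neg fun h' => h h'.symm]

/-- [PAC] a separated set of variables -/
theorem thm_Pac : St_Pac := by
  classical
  intro n s m C μ U δ hδ hμ hU H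
  have hBpos : (0 : ℝ) < (m ^ 2 + 1 : ℕ) := by positivity
  have hq : 0 < δ / (m ^ 2 + 1 : ℕ) := div_pos hδ hBpos
  obtain ⟨A, hAF, hmax⟩ := Finset.exists_max_image
    (U.powerset.filter fun A => ∀ v ∈ A, ∀ v' ∈ A, v ≠ v' →
      δ / (m ^ 2 + 1 : ℕ) ≤ Pac_d m C μ v v') Finset.card
    ⟨∅, Finset.mem_filter.2 ⟨Finset.mem_powerset.2 (Finset.empty_subset _), by
      intro v hv
      exact absurd hv (Finset.notMem_empty v)⟩⟩
  rw [Finset.mem_filter, Finset.mem_powerset] at hAF
  obtain ⟨hAU, hsep⟩ := hAF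
  have hnear : ∀ v ∈ U, ∃ u ∈ A, Pac_d m C μ v u < δ / (m ^ 2 + 1 : ℕ) := by
    intro v hv
    by_cases hvA : v ∈ A
    · exact ⟨v, hvA, by rw [Pac_self]; exact hq⟩
    · by_contra hcon
      push Not at hcon
      have hmem : insert v A ∈ U.powerset.filter fun A => ∀ v ∈ A, ∀ v' ∈ A, v ≠ v' →
          δ / (m ^ 2 + 1 : ℕ) ≤ Pac_d m C μ v v' := by
        rw [Finset.mem_filter, Finset.mem_powerset]
        refine ⟨Finset.insert_subset hv hAU, ?_⟩
        intro x hx y hy hxy
        rw [Finset.mem_insert] at hx hy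
        rcases hx with rfl | hx
        · rcases hy with rfl | hy
          · exact absurd rfl hxy
          · exact hcon y hy
        · rcases hy with rfl | hy
          · rw [Pac_symm]
            exact hcon x hx
          · exact hsep x hx y hy hxy
      have h1 := hmax _ hmem
      rw [Finset.card_insert_of_notMem hvA] at h1
      omega
  choose! f hfA hfd using hnear
  have hUA : U.card ≤ A.card * (m ^ 2 + 1) := by
    by_contra hlt
    push Not at hlt
    obtain ⟨u, -, hu⟩ := Finset.exists_lt_card_fiber_of_mul_lt_card_of_maps_to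
      (fun v hv => hfA v hv) hlt
    obtain ⟨W, hWs, hWc⟩ := Finset.exists_subset_card_eq hu.le
    have hWU : W ⊆ U := fun v hv => (Finset.mem_filter.1 (hWs hv)).1
    have hWf : ∀ v ∈ W, f v = u := fun v hv => (Finset.mem_filter.1 (hWs hv)).2
    have h2 := H W (fun _ _ => 1) hWU (by rw [hWc, mul_one])
    have h3 : (∑ g, if InSpan C m W (fun _ _ => (1 : ZMod m) : Fin 1 → Fin n → ZMod m) g
        then 0 else μ g) ≤ ∑ g, ∑ v ∈ W, if (C.vw g v : ZMod m) = C.vw g u then 0 else μ g := by
      refine Finset.sum_le_sum fun g _ => ?_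
      have hnn : ∀ v ∈ W, (0 : ℝ) ≤ if (C.vw g v : ZMod m) = C.vw g u then 0 else μ g := by
        intro v _
        split_ifs
        · exact le_rfl
        · exact hμ g
      by_cases hin : InSpan C m W (fun _ _ => (1 : ZMod m) : Fin 1 → Fin n → ZMod m) g
      · rw [if_pos hin]
        exact Finset.sum_nonneg hnn
      · rw [if_neg hin]
        have hex : ∃ v ∈ W, (C.vw g v : ZMod m) ≠ C.vw g u := by
          by_contra hno
          push Not at hno
          exact hin ⟨fun _ => (C.vw g u : ZMod m), fun v hv => by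
            rw [hno v hv, Fin.sum_univ_one, mul_one]⟩
        obtain ⟨v, hvW, hvne⟩ := hex
        calc μ g = if (C.vw g v : ZMod m) = C.vw g u then 0 else μ g := by rw [if_neg hvne]
          _ ≤ _ := Finset.single_le_sum hnn hvW
    have h4 : (∑ g, ∑ v ∈ W, if (C.vw g v : ZMod m) = C.vw g u then 0 else μ g) ≤ δ := by
      rw [Finset.sum_comm]
      calc (∑ v ∈ W, ∑ g, if (C.vw g v : ZMod m) = C.vw g u then 0 else μ g)
          ≤ ∑ v ∈ W, δ / (m ^ 2 + 1 : ℕ) := by
            refine Finset.sum_le_sum fun v hv => ?_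
            have h5 := hfd v (hWU hv)
            rw [hWf v hv] at h5
            exact h5.le
        _ = δ := by
            rw [Finset.sum_const, hWc, nsmul_eq_mul]
            field_simp
    have h6 := lt_of_lt_of_le h2 (le_trans h3 h4)
    exact lt_irrefl _ h6
  refine ⟨A, hAU, ?_, ?_⟩
  · calc n ≤ 2 * U.card := hU
      _ ≤ 2 * (A.card * (m ^ 2 + 1)) := Nat.mul_le_mul_left 2 hUA
      _ = 2 * (m ^ 2 + 1) * A.card := by ring
  · intro v hv v' hv' hne
    exact hsep v hv v' hv' hne

end Pool.Agent.SPR
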