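import Pool.Agent.SPR.St2

/-!
# SPR / Pac2: a separated set of variables, robust form
-/

set_option autoImplicit false

namespace Pool.Agent.SPR

open Finset Pool.Agent.RIG

/-- the measure of the gates in which the entries of `v`, `v'` are different -/
private noncomputable def Pac2_d {n s m : ℕ} (h : Fin s → Fin n → ZMod m) (μ : Fin s → ℝ)
    (v v' : Fin n) : ℝ :=
  ∑ g, if h g v = h g v' then 0 else μ g

private theorem Pac2_symm {n s m : ℕ} (h : Fin s → Fin n → ZMod m) (μ : Fin s → ℝ)
    (v v' : Fin n) : Pac2_d h μ v v' = Pac2_d h μ v' v := by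
  unfold Pac2_d
  apply sum_congr rfl
  intro g _
  by_cases e : h g v = h g v'
  · rw [if_pos e, if_pos e.symm]
  · rw [if_neg e, if_neg fun h' => e h'.symm]

private theorem Pac2_self {n s m : ℕ} (h : Fin s → Fin n → ZMod m) (μ : Fin s → ℝ)
    (v : Fin n) : Pac2_d h μ v v = 0 := by
  unfold Pac2_d
  apply sum_eq_zero
  intro g _
  rw [if_pos rfl]

/-- a maximal separated set and a crowded ball -/
private theorem Pac2_ball {n s m : ℕ} (h : Fin s → Fin n → ZMod m) (μ : Fin s → ℝ)
    (U : Finset (Fin n)) (B : ℕ) (ε : ℝ) (hε0 : 0 < ε) :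
    ∃ A ⊆ U, (∀ v ∈ A, ∀ v' ∈ A, v ≠ v' → ε ≤ Pac2_d h μ v v') ∧
      (U.card ≤ B * A.card ∨ ∃ (u : Fin n) (W : Finset (Fin n)), W ⊆ U ∧ W.card = B ∧
        ∀ v ∈ W, Pac2_d h μ v u ≤ ε) := by
  classical
  obtain ⟨A, hA, hmax⟩ := exists_max_image
    (U.powerset.filter fun A => ∀ v ∈ A, ∀ v' ∈ A, v ≠ v' → ε ≤ Pac2_d h μ v v')
    (fun A => A.card) ⟨∅, by simp⟩
  rw [mem_filter, mem_powerset] at hA
  obtain ⟨hAU, hAs⟩ := hA
  refine ⟨A, hAU, hAs, ?_⟩
  have hnear : ∀ v ∈ U, ∃ u ∈ A, Pac2_d h μ v u < ε := by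
    intro v hv
    by_contra hcon
    push Not at hcon
    have hvA : v ∉ A := by
      intro h'
      have := hcon v h'
      rw [Pac2_self] at this
      linarith
    have h1 := hmax (insert v A) (by
      rw [mem_filter, mem_powerset]
      refine ⟨insert_subset hv hAU, fun x hx y hy hxy => ?_⟩
      rw [mem_insert] at hx hy
      rcases hx with rfl | hx <;> rcases hy with rfl | hy
      · exact absurd rfl hxy
      · exact hcon y hy
      · rw [Pac2_symm]
        exact hcon x hx
      · exact hAs x hx y hy hxy)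
    rw [card_insert_of_notMem hvA] at h1
    omega
  choose! f hfA hfd using hnear
  rcases Nat.lt_or_ge (A.card * B) U.card with hlt | hge
  · right
    obtain ⟨u, huA, hu⟩ := exists_lt_card_fiber_of_mul_lt_card_of_maps_to
      (s := U) (t := A) (f := f) (n := B) hfA hlt
    obtain ⟨W, hWs, hWc⟩ := exists_subset_card_eq hu.le
    refine ⟨u, W, fun v hv => (mem_filter.1 (hWs hv)).1, hWc, fun v hv => ?_⟩
    have h6 := mem_filter.1 (hWs hv)
    have h7 := hfd v h6.1
    rw [h6.2] at h7
    exact h7.le
  · left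
    rw [mul_comm]
    exact hge

/-- **PAC2.** -/
theorem thm_Pac2 : St_Pac2 := by
  classical
  intro n s m r f p C μ U δ R h hn hδ hμ hμ1 hμS hU hdec hspan
  obtain ⟨B, hB⟩ : ∃ B : ℕ, B = m ^ 2 * (r + 1) + 1 := ⟨_, rfl⟩
  rw [← hB]
  have hB1 : 1 ≤ B := by omega
  have hBR : (0 : ℝ) < B := by exact_mod_cast hB1
  have hnR : (0 : ℝ) < n := by exact_mod_cast hn
  rcases lt_or_ge ((n : ℝ) * δ) (8 * B * f) with hlt | hge
  · exact Or.inl hlt
  right
  -- the combinations
  have hex : ∀ g, ∃ a : Fin r → ZMod m, μ g ≠ 0 →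
      (univ.filter fun v => (C.vw g v : ZMod m) ≠ (∑ i, a i * R i v) + h g v).card ≤ f := by
    intro g
    by_cases hg : μ g = 0
    · exact ⟨fun _ => 0, fun h' => absurd hg h'⟩
    · obtain ⟨M, hM⟩ := hμS g hg
      obtain ⟨a, ha⟩ := hdec g M hM
      exact ⟨a, fun _ => ha⟩
  choose a ha using hex
  -- the loads
  set ld : Fin n → ℝ := fun v =>
    ∑ g, if (C.vw g v : ZMod m) = (∑ i, a g i * R i v) + h g v then 0 else μ g with hld
  have hld0 : ∀ v, 0 ≤ ld v := by
    intro v
    apply sum_nonneg
    intro g _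
    split_ifs
    · exact le_rfl
    · exact hμ g
  have hldsum : ∑ v, ld v ≤ f := by
    rw [hld]
    rw [sum_comm]
    have e1 : ∀ g ∈ (univ : Finset (Fin s)), (∑ v : Fin n,
        if (C.vw g v : ZMod m) = (∑ i, a g i * R i v) + h g v then 0 else μ g) ≤ f * μ g := by
      intro g _
      have e2 : (∑ v : Fin n,
          if (C.vw g v : ZMod m) = (∑ i, a g i * R i v) + h g v then 0 else μ g) =
          (univ.filter fun v =>
            (C.vw g v : ZMod m) ≠ (∑ i, a g i * R i v) + h g v).card * μ g := by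
        rw [← nsmul_eq_mul, ← sum_const, sum_filter]
        apply sum_congr rfl
        intro v _
        by_cases e : (C.vw g v : ZMod m) = (∑ i, a g i * R i v) + h g v
        · rw [if_pos e, if_neg (not_not.2 e)]
        · rw [if_neg e, if_pos e]
      rw [e2]
      by_cases hg : μ g = 0
      · rw [hg]
        simp
      · apply mul_le_mul_of_nonneg_right _ (hμ g)
        exact_mod_cast ha g hg
    refine (sum_le_sum e1).trans ?_
    rw [← mul_sum, hμ1, mul_one]
  -- the variables of small load
  obtain ⟨θ, hθ⟩ : ∃ θ : ℝ, θ = 4 * f / n := ⟨_, rfl⟩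
  set V := U.filter fun v => ld v ≤ θ with hV
  have hVc : n ≤ 4 * V.card := by
    rcases Nat.eq_zero_or_pos f with h0 | hfpos
    · -- no load at all
      have hz : ∀ v, ld v = 0 := by
        intro v
        have h1 : ∑ v, ld v ≤ 0 := by
          rw [h0] at hldsum
          simpa using hldsum
        have h2 := single_le_sum (fun i _ => hld0 i) (mem_univ v)
        linarith [hld0 v]
      have h3 : V = U := by
        rw [hV]
        apply filter_true_of_mem
        intro v _
        rw [hz v, hθ]
        positivity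
      rw [h3]
      omega
    · have hfR : (0 : ℝ) < f := by exact_mod_cast hfpos
      have hθ0 : 0 < θ := by
        rw [hθ]
        positivity
      have h1 : ((U.filter fun v => ¬ ld v ≤ θ).card : ℝ) * θ ≤ f := by
        rw [← nsmul_eq_mul]
        refine (card_nsmul_le_sum _ ld θ fun v hv => ?_).trans ?_
        · exact (not_le.1 (mem_filter.1 hv).2).le
        · refine (sum_le_univ_sum_of_nonneg hld0).trans hldsum
      have h2 : ((U.filter fun v => ¬ ld v ≤ θ).card : ℝ) * 4 ≤ n := by
        rw [hθ] at h1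
        have h3 : ((U.filter fun v => ¬ ld v ≤ 4 * (f : ℝ) / n).card : ℝ) * (4 * f / n) =
            ((U.filter fun v => ¬ ld v ≤ 4 * (f : ℝ) / n).card : ℝ) * 4 * f / n := by ring
        rw [h3, div_le_iff₀ hnR, mul_comm (f : ℝ)] at h1
        rw [hθ]
        exact le_of_mul_le_mul_right h1 hfR
      have h4 : (U.filter fun v => ¬ ld v ≤ θ).card * 4 ≤ n := by exact_mod_cast h2
      have h5 := card_filter_add_card_filter_not (s := U) (fun v => ld v ≤ θ)
      rw [← hV] at h5
      omega
  obtain ⟨ε, hε⟩ : ∃ ε : ℝ, ε = δ / (2 * B) := ⟨_, rfl⟩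
  have hε0 : 0 < ε := by
    rw [hε]
    positivity
  rw [← hε]
  obtain ⟨A, hAV, hAs, hor⟩ := Pac2_ball h μ V B ε hε0
  have hVU : V ⊆ U := filter_subset _ _
  refine ⟨A, hAV.trans hVU, ?_, fun v hv v' hv' hne => hAs v hv v' hv' hne⟩
  rcases hor with hc | ⟨u, W, hWV, hWc, hWd⟩
  · have e : 4 * B * A.card = 4 * (B * A.card) := by ring
    omega
  · exfalso
    have h1 := hspan W (Fin.cons (fun _ => 1) R) (hWV.trans hVU) (by rw [hWc, hB])
    have h2 : (∑ g, if InSpan C m W (Fin.cons (fun _ => 1) R : Fin (r + 1) → Fin n → ZMod m) g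
        then 0 else μ g) ≤ ∑ v ∈ W, (Pac2_d h μ v u + ld v) := by
      unfold Pac2_d
      simp only [hld, ← sum_add_distrib]
      rw [sum_comm]
      apply sum_le_sum
      intro g _
      have hnn : ∀ v ∈ W, 0 ≤ (if h g v = h g u then 0 else μ g) +
          (if (C.vw g v : ZMod m) = (∑ i, a g i * R i v) + h g v then 0 else μ g) := by
        intro v _
        apply add_nonneg
        · split_ifs
          · exact le_rfl
          · exact hμ g
        · split_ifs
          · exact le_rfl
          · exact hμ g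
      by_cases hI : InSpan C m W (Fin.cons (fun _ => 1) R : Fin (r + 1) → Fin n → ZMod m) g
      · rw [if_pos hI]
        exact sum_nonneg hnn
      · rw [if_neg hI]
        have h3 : ∃ v ∈ W, h g v ≠ h g u ∨
            (C.vw g v : ZMod m) ≠ (∑ i, a g i * R i v) + h g v := by
          by_contra hno
          push Not at hno
          apply hI
          refine ⟨Fin.cons (h g u) (a g), fun v hv => ?_⟩
          obtain ⟨e1, e2⟩ := hno v hv
          rw [e2, e1, Fin.sum_univ_succ]
          simp only [Fin.cons_zero, Fin.cons_succ, mul_one]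
          ring
        obtain ⟨v, hv, hne⟩ := h3
        refine le_trans ?_ (single_le_sum hnn hv)
        rcases hne with e | e
        · rw [if_neg e]
          have : 0 ≤ (if (C.vw g v : ZMod m) = (∑ i, a g i * R i v) + h g v then 0 else μ g) := by
            split_ifs
            · exact le_rfl
            · exact hμ g
          linarith
        · rw [if_neg e]
          have : 0 ≤ (if h g v = h g u then 0 else μ g) := by
            split_ifs
            · exact le_rfl
            · exact hμ g
          linarith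
    have h5 : ∑ v ∈ W, (Pac2_d h μ v u + ld v) ≤ ∑ v ∈ W, (ε + θ) := by
      apply sum_le_sum
      intro v hv
      exact add_le_add (hWd v hv) (mem_filter.1 (hWV hv)).2
    rw [sum_const, hWc, nsmul_eq_mul] at h5
    have h6 : (B : ℝ) * (ε + θ) ≤ δ := by
      have e1 : (B : ℝ) * ε = δ / 2 := by
        rw [hε]
        field_simp
      have e2 : (B : ℝ) * θ ≤ δ / 2 := by
        rw [hθ, ← mul_div_assoc, div_le_iff₀ hnR]
        linarith
      rw [mul_add]
      linarith
    have h8 := h1.trans_le ((le_of_eq (sum_congr rfl fun g _ => by congr)).trans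
      (h2.trans (h5.trans h6)))
    exact lt_irrefl _ h8

end Pool.Agent.SPR
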