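import Pool.Agent.SPR.St

/-!
# SPR, module SGN: wirings of small sign rank
-/

set_option autoImplicit false

namespace Pool.Agent.SPR

open Finset Pool.Agent.RIG

/-- a nontrivial relation with a negative coefficient -/
private theorem Sgn_rel {D e : ℕ} (h : e < D) (w : Fin D → Fin e → ℝ) :
    ∃ l : Fin D → ℝ, (∀ j, ∑ i, l i * w i j = 0) ∧ ∃ i, l i < 0 := by
  have h1 : ¬ LinearIndependent ℝ w := by
    intro hli
    have h2 := hli.fintype_card_le_finrank
    rw [Fintype.card_fin, Module.finrank_fintype_fun_eq_card, Fintype.card_fin] at h2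
    omega
  obtain ⟨l, hl, i, hi⟩ := Fintype.not_linearIndependent_iff.1 h1
  have hl' : ∀ j, ∑ i, l i * w i j = 0 := by
    intro j
    have h3 := congrFun hl j
    rw [Finset.sum_apply] at h3
    exact h3
  rcases lt_or_gt_of_ne hi with h4 | h4
  · exact ⟨l, hl', i, h4⟩
  · refine ⟨fun i => -l i, fun j => ?_, i, by simpa using h4⟩
    have h5 : ∑ i, -l i * w i j = -∑ i, l i * w i j := by
      rw [← Finset.sum_neg_distrib]
      exact Finset.sum_congr rfl fun i _ => by ring
    rw [h5, hl' j, neg_zero]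

theorem thm_Sgn : St_Sgn := by
  classical
  intro n s p m D e C x y hm hvw hsh
  obtain ⟨g, a, hsp, hS⟩ := hsh
  by_contra hlt
  have : Fact (1 < m) := ⟨by omega⟩
  have hval : ∀ i v, (C.vw (g i) v : ZMod m) =
      if 0 ≤ ∑ j, y (g i) j * x v j then 1 else 0 := by
    intro i v
    rw [hvw (g i) v (hsp i)]
    split_ifs
    · exact Nat.cast_one
    · exact Nat.cast_zero
  have h01 : (0 : ZMod m) ≠ 1 := zero_ne_one
  obtain ⟨l, hl, i₀, hi₀⟩ := Sgn_rel (not_le.1 hlt) fun i => y (g i)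
  obtain ⟨vu, hvu⟩ := hS univ
  obtain ⟨v, hv⟩ := hS (univ.filter fun i => 0 ≤ l i ↔ (1 : ZMod m) = a i)
  have hkey : ∀ i, 0 ≤ ∑ j, y (g i) j * x v j ↔ 0 ≤ l i := by
    intro i
    have h1 := hv i
    rw [mem_filter, and_iff_right (mem_univ i), hval i v] at h1
    have h2 := hvu i
    rw [iff_true_right (mem_univ i), hval i vu] at h2
    by_cases h3 : (1 : ZMod m) = a i
    · have h4 : (0 : ZMod m) ≠ a i := fun h => h01 (h.trans h3.symm)
      by_cases h5 : 0 ≤ ∑ j, y (g i) j * x v j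
      · rw [if_pos h5] at h1
        exact iff_of_true h5 ((h1.1 h3).2 h3)
      · rw [if_neg h5] at h1
        refine iff_of_false h5 fun h6 => h4 (h1.2 (iff_of_true h6 h3))
    · have h4 : (0 : ZMod m) = a i := by
        by_cases h5 : 0 ≤ ∑ j, y (g i) j * x vu j
        · rw [if_pos h5] at h2
          exact absurd h2 h3
        · rwa [if_neg h5] at h2
      by_cases h5 : 0 ≤ ∑ j, y (g i) j * x v j
      · rw [if_pos h5] at h1
        refine iff_of_true h5 ?_
        by_contra h6
        exact h3 (h1.2 (iff_of_false h6 h3))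
      · rw [if_neg h5] at h1
        refine iff_of_false h5 fun h6 => h3 ((h1.1 h4).1 h6)
  have hsum : ∑ i, l i * ∑ j, y (g i) j * x v j = 0 := by
    have h1 : ∀ i, l i * ∑ j, y (g i) j * x v j = ∑ j, x v j * (l i * y (g i) j) := by
      intro i
      rw [Finset.mul_sum]
      exact Finset.sum_congr rfl fun j _ => by ring
    rw [Finset.sum_congr rfl fun i _ => h1 i, Finset.sum_comm]
    refine Finset.sum_eq_zero fun j _ => ?_
    rw [← Finset.mul_sum, hl j, mul_zero]
  have hnn : ∀ i, 0 ≤ l i * ∑ j, y (g i) j * x v j := by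
    intro i
    by_cases h : 0 ≤ l i
    · exact mul_nonneg h ((hkey i).2 h)
    · have h2 : ¬ 0 ≤ ∑ j, y (g i) j * x v j := fun h3 => h ((hkey i).1 h3)
      exact le_of_lt (mul_pos_of_neg_of_neg (not_le.1 h) (not_le.1 h2))
  have h0 := (Finset.sum_eq_zero_iff_of_nonneg fun i _ => hnn i).1 hsum i₀ (mem_univ _)
  have h2 : ¬ 0 ≤ ∑ j, y (g i₀) j * x v j := fun h3 => (not_le.2 hi₀) ((hkey i₀).1 h3)
  exact absurd h0 (ne_of_gt (mul_pos_of_neg_of_neg hi₀ (not_le.1 h2)))

end Pool.Agent.SPR
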