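import Pool.Agent.SPR.St

/-!
# SPR / Spr: spread
-/

set_option autoImplicit false

namespace Pool.Agent.SPR

open Finset Pool.Agent.RIG

private theorem Spr_step {n s : ℕ} (p m r B : ℕ) (C : Circuit n s) (δ : ℝ)
    (hB : B = m ^ 2 * r + 1) (hBn : 2 * B ≤ n)
    (hcon : ¬ ∃ (μ : Fin s → ℝ) (U : Finset (Fin n)), (∀ g, 0 ≤ μ g) ∧ ∑ g, μ g = 1 ∧
      (∀ g, μ g ≠ 0 → ∃ M, C.Special p g M) ∧ n ≤ 2 * U.card ∧
      ∀ (W : Finset (Fin n)) (R : Fin r → Fin n → ZMod m), W ⊆ U → W.card = m ^ 2 * r + 1 →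
        δ < ∑ g, (open scoped Classical in if InSpan C m W R g then 0 else μ g))
    (G₀ : Finset (Fin s)) (hG : ∀ g, g ∈ G₀ ↔ ∃ M, C.Special p g M)
    (U : Finset (Fin n)) (w : Fin s → ℝ) (hU : n ≤ 2 * U.card) (hw : ∀ g, 0 ≤ w g) :
    ∃ c : Finset (Fin n) × (Fin r → Fin n → ZMod m), c.1 ⊆ U ∧ c.1.card = B ∧
      (∑ g ∈ G₀, (open scoped Classical in if ¬ InSpan C m c.1 c.2 g then w g else 0)) ≤
        δ * ∑ g ∈ G₀, w g := by
  classical
  set S := ∑ g ∈ G₀, w g with hS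
  have hS0 : 0 ≤ S := sum_nonneg fun g _ => hw g
  rcases hS0.eq_or_lt with h0 | hpos
  · obtain ⟨W, hW1, hW2⟩ := exists_subset_card_eq (show B ≤ U.card by omega)
    refine ⟨(W, fun _ _ => 0), hW1, hW2, ?_⟩
    rw [← h0, mul_zero]
    have hz : ∀ g ∈ G₀, w g = 0 := (sum_eq_zero_iff_of_nonneg fun g _ => hw g).1 h0.symm
    apply le_of_eq
    apply sum_eq_zero
    intro g hg
    rw [hz g hg]
    simp
  · by_contra hno
    apply hcon
    refine ⟨fun g => if g ∈ G₀ then w g / S else 0, U, fun g => ?_, ?_, fun g hg => ?_, hU,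
      fun W R hW1 hW2 => ?_⟩
    · show 0 ≤ if g ∈ G₀ then w g / S else 0
      split_ifs
      · exact div_nonneg (hw g) hS0
      · exact le_rfl
    · rw [← sum_filter, filter_mem_eq_inter, univ_inter, ← sum_div, ← hS, div_self hpos.ne']
    · by_contra hg'
      apply hg
      show (if g ∈ G₀ then w g / S else 0) = 0
      rw [if_neg]
      intro h
      exact hg' ((hG g).1 h)
    · by_contra hle
      rw [not_lt] at hle
      apply hno
      refine ⟨(W, R), hW1, by rw [hB]; exact hW2, ?_⟩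
      have e : ∑ g ∈ G₀, (if ¬ InSpan C m W R g then w g else 0) =
          S * ∑ g, (if InSpan C m W R g then 0 else if g ∈ G₀ then w g / S else 0) := by
        have e1 : ∑ g, (if InSpan C m W R g then 0 else if g ∈ G₀ then w g / S else 0) =
            ∑ g ∈ G₀, (if InSpan C m W R g then 0 else w g / S) := by
          rw [← sum_subset (subset_univ G₀)]
          · apply sum_congr rfl
            intro g hg
            rw [if_pos hg]
          · intro g _ hg
            rw [if_neg hg, ite_self]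
        rw [e1, mul_sum]
        apply sum_congr rfl
        intro g _
        by_cases hI : InSpan C m W R g
        · rw [if_neg (not_not.2 hI), if_pos hI, mul_zero]
        · rw [if_pos hI, if_neg hI, mul_div_cancel₀ _ hpos.ne']
      show ∑ g ∈ G₀, (if ¬ InSpan C m W R g then w g else 0) ≤ δ * S
      rw [e, mul_comm δ]
      exact mul_le_mul_of_nonneg_left hle hS0

/-- **SPR.** -/
theorem thm_Spr (hL : St_LocP) (hW : St_Wgt) : St_Spr := by
  classical
  intro p d hp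
  obtain ⟨K₀, hK₀⟩ := hL p d hp
  refine ⟨4 * (K₀ + 1), ?_⟩
  intro n s m r t C q F δ hm hd hPB hMaj hSp hδ ht hlt
  by_contra hcon
  have hs : 1 ≤ s := C.out.pos
  have hsR : (1 : ℝ) ≤ s := by exact_mod_cast hs
  have hl2 : (0.69 : ℝ) < Real.log 2 := by
    have := Real.log_two_gt_d9
    linarith
  have hF1 : 1 ≤ F C.out := (hPB C.out).1
  have hF1R : (1 : ℝ) ≤ F C.out := by exact_mod_cast hF1
  obtain ⟨B, hB⟩ : ∃ B : ℕ, B = m ^ 2 * r + 1 := ⟨_, rfl⟩
  rw [← hB] at ht hlt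
  have hB1 : 1 ≤ B := by omega
  have hBR : (1 : ℝ) ≤ B := by exact_mod_cast hB1
  obtain ⟨K, hK⟩ : ∃ K : ℕ, K = 4 * (K₀ + 1) := ⟨_, rfl⟩
  rw [← hK] at hlt
  obtain ⟨Λ, hΛ⟩ : ∃ Λ : ℝ, Λ = Real.log (s + n) := ⟨_, rfl⟩
  rw [← hΛ] at hlt
  have hn1 : 1 ≤ n := by
    have hΛ0 : 0 ≤ Λ := by
      rw [hΛ]
      apply Real.log_nonneg
      have : (0 : ℝ) ≤ n := Nat.cast_nonneg n
      linarith
    have h1 : 0 ≤ F C.out * (B * (K * Λ) ^ K) := by positivity
    have h2 : (0 : ℝ) < n := lt_of_le_of_lt h1 hlt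
    exact_mod_cast h2
  have hnR : (1 : ℝ) ≤ n := by exact_mod_cast hn1
  have hΛ2 : 0.69 < Λ := by
    rw [hΛ]
    refine hl2.trans_le (Real.log_le_log (by norm_num) (by linarith))
  have hK4 : (4 : ℝ) * (K₀ + 1) = K := by
    rw [hK]
    push_cast
    ring
  have hK₀0 : (0 : ℝ) ≤ K₀ := Nat.cast_nonneg _
  have hKΛ : 2 ≤ K * Λ := by
    rw [← hK4]
    nlinarith
  have hKΛ' : (K₀ : ℝ) * Λ ≤ K * Λ := by
    apply mul_le_mul_of_nonneg_right _ (by linarith)
    rw [← hK4]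
    linarith
  have hpow : 4 * ((K₀ : ℝ) * Λ) ^ K₀ ≤ (K * Λ) ^ K := by
    have e1 : (K * Λ) ^ (K₀ + 2) ≤ (K * Λ) ^ K := by
      apply pow_le_pow_right₀ (by linarith)
      omega
    refine le_trans ?_ e1
    rw [pow_add]
    have e2 : ((K₀ : ℝ) * Λ) ^ K₀ ≤ (K * Λ) ^ K₀ :=
      pow_le_pow_left₀ (mul_nonneg hK₀0 (by linarith)) hKΛ' _
    have e3 : (4 : ℝ) ≤ (K * Λ) ^ 2 := by nlinarith
    have e4 : 0 ≤ ((K₀ : ℝ) * Λ) ^ K₀ := pow_nonneg (mul_nonneg hK₀0 (by linarith)) _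
    calc 4 * ((K₀ : ℝ) * Λ) ^ K₀ = ((K₀ : ℝ) * Λ) ^ K₀ * 4 := by ring
      _ ≤ (K * Λ) ^ K₀ * (K * Λ) ^ 2 := mul_le_mul e2 e3 (by norm_num) (by positivity)
  have hpow2 : 2 ≤ (K * Λ) ^ K := by
    have e1 : (K * Λ) ^ 1 ≤ (K * Λ) ^ K := by
      apply pow_le_pow_right₀ (by linarith)
      omega
    rw [pow_one] at e1
    linarith
  have hBn : 2 * B ≤ n := by
    have h1 : (B : ℝ) * 2 ≤ B * (K * Λ) ^ K :=
      mul_le_mul_of_nonneg_left hpow2 (by linarith)
    have h2 : (B : ℝ) * (K * Λ) ^ K ≤ F C.out * (B * (K * Λ) ^ K) :=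
      le_mul_of_one_le_left (by positivity) hF1R
    have h3 : (2 : ℝ) * B ≤ n := by linarith
    exact_mod_cast h3
  set G₀ : Finset (Fin s) := univ.filter fun g => ∃ M, C.Special p g M with hG₀
  have hG : ∀ g, g ∈ G₀ ↔ ∃ M, C.Special p g M := by
    intro g
    rw [hG₀, mem_filter]
    simp
  set k := n / (2 * B) with hk
  have hk1 : 1 ≤ k := by
    rw [hk, Nat.le_div_iff_mul_le (by omega)]
    omega
  obtain ⟨c, hc1, hc2, hc3⟩ := hW n s B (Finset (Fin n) × (Fin r → Fin n → ZMod m))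
    (fun c => c.1) (fun c g => ¬ InSpan C m c.1 c.2 g) G₀ δ hδ hB1
    (fun U w hU hw => by
      obtain ⟨c, a1, a2, a3⟩ := Spr_step p m r B C δ hB hBn hcon G₀ hG U w hU hw
      refine ⟨c, a1, a2, le_trans (le_of_eq ?_) a3⟩
      apply sum_congr rfl
      intro g _
      congr) k
    (Nat.mul_div_le n (2 * B))
  have hres := hK₀ n s m r k C (fun g => q g + t) F (fun j => (c j).1) (fun j => (c j).2) hm hd
    hPB hMaj (fun j => by rw [hc1 j]; omega) hc2 (fun g M hgM => by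
      refine ⟨(hSp g M hgM).1, univ.filter fun j => ¬ InSpan C m (c j).1 (c j).2 g,
        univ.filter fun h => (C.gw g h : ZMod m) ≠ 0, ?_, ?_, ?_⟩
      · have h1 := hc3 g ((hG g).2 ⟨M, hgM⟩)
        have h2 : ((univ.filter fun j => ¬ InSpan C m (c j).1 (c j).2 g).card : ℝ) ≤ t := by
          refine le_trans (le_of_eq ?_) (h1.trans ht)
          congr
        have h3 : (univ.filter fun j => ¬ InSpan C m (c j).1 (c j).2 g).card ≤ t := by
          exact_mod_cast h2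
        have h4 := (hSp g M hgM).2
        show _ ≤ q g + t
        omega
      · intro h hh
        by_contra hne
        exact hh (mem_filter.2 ⟨mem_univ _, hne⟩)
      · intro j hj
        by_contra hne
        exact hj (mem_filter.2 ⟨mem_univ _, hne⟩))
  rw [← hΛ] at hres
  have hkn : (n : ℝ) ≤ 4 * B * k := by
    have h1 : n < 2 * B * (k + 1) := Nat.lt_mul_div_succ n (by omega)
    have h2 : 2 * B * (k + 1) ≤ 4 * B * k := by nlinarith
    exact_mod_cast h1.le.trans h2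
  have h5 : (n : ℝ) ≤ F C.out * (B * (K * Λ) ^ K) := by
    calc (n : ℝ) ≤ 4 * B * k := hkn
      _ ≤ 4 * B * (F C.out * (K₀ * Λ) ^ K₀) :=
          mul_le_mul_of_nonneg_left hres (by positivity)
      _ = F C.out * (B * (4 * (K₀ * Λ) ^ K₀)) := by ring
      _ ≤ F C.out * (B * (K * Λ) ^ K) := by
          apply mul_le_mul_of_nonneg_left _ (by linarith)
          exact mul_le_mul_of_nonneg_left hpow (by linarith)
  linarith

end Pool.Agent.SPR
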