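import Pool.Agent.RIG.Stmts2

/-!
# SPR (MP_3586ff_lc): the coefficient vectors of the gates modulo `m` in circuits for majority are
spread, and the variables shatter nearly `log n` of these gates

Statements of the modules with complete proofs. Everything about circuits is used only through
`RIG.St_LocP` (proved in `RIG.AllP`). Abstract index types: `V` variables, `G` gates.
-/

set_option autoImplicit false

namespace Pool.Agent.SPR

open Finset Pool.Agent.RIG

/-- On the set `W` the coefficient vector of the gate `g`, modulo `m`, is a combination of the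
vectors `R i`. -/
def InSpan {n s : ℕ} (C : Circuit n s) (m : ℕ) {r : ℕ} (W : Finset (Fin n))
    (R : Fin r → Fin n → ZMod m) (g : Fin s) : Prop :=
  ∃ a : Fin r → ZMod m, ∀ v ∈ W, (C.vw g v : ZMod m) = ∑ i, a i * R i v

/-- The variables shatter `D` counting gates with a modulus different from `p`: for suitable
residues `a i` and every set `S` of these gates there is a variable whose coefficient in the gate
`g i`, modulo `m`, is `a i` exactly for the `i` in `S`. -/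
def Shatters {n s : ℕ} (p : ℕ) (C : Circuit n s) (m D : ℕ) : Prop :=
  ∃ (g : Fin D → Fin s) (a : Fin D → ZMod m), (∀ i, ∃ M, C.Special p (g i) M) ∧
    ∀ S : Finset (Fin D), ∃ v : Fin n, ∀ i, (C.vw (g i) v : ZMod m) = a i ↔ i ∈ S

/-- WGT.  Multiplicative weights.

`Bad c g`: the gate `g` is bad for the configuration `c : T`; `W c` is the set of variables of `c`.

Proof.  Induction on `k` (number of configurations chosen so far), for all `k` with `2 B k ≤ n`: there are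
`c : Fin k → T` with the properties and `∑_{g ∈ G₀} 2^(N g) ≤ #G₀ (1 + δ)^k`, where `N g` is the number of the `j` with
`Bad (c j) g`.  Step: `U` = complement of the union of the `W (c j)`, `#U ≥ n - k B ≥ n/2`; apply the hypothesis to the
weights `w g = 2^(N g)` (`g ∈ G₀`); the new sum is the old one plus the sum over the bad `g`.
At the end, for `g ∈ G₀`: `2^(N g) ≤ #G₀ (1 + δ)^k ≤ s e^{δ k}`, so
`N g ≤ logb 2 s + δ k / log 2 ≤ logb 2 s + 2 δ k` (`log 2 ≥ 1/2`), and `2 B k ≤ n`. -/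
def St_Wgt : Prop := ∀ (n s B : ℕ) (T : Type) (W : T → Finset (Fin n)) (Bad : T → Fin s → Prop)
  (G₀ : Finset (Fin s)) (δ : ℝ), 0 ≤ δ → 1 ≤ B →
  (∀ (U : Finset (Fin n)) (w : Fin s → ℝ), n ≤ 2 * U.card → (∀ g, 0 ≤ w g) →
    ∃ c : T, W c ⊆ U ∧ (W c).card = B ∧
      (∑ g ∈ G₀, (open scoped Classical in if Bad c g then w g else 0)) ≤ δ * ∑ g ∈ G₀, w g) →
  ∀ k : ℕ, 2 * B * k ≤ n → ∃ c : Fin k → T, (∀ j, (W (c j)).card = B) ∧
    (∀ i j, i ≠ j → Disjoint (W (c i)) (W (c j))) ∧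
    ∀ g ∈ G₀, ((open scoped Classical in univ.filter fun j => Bad (c j) g).card : ℝ) ≤
      Real.logb 2 s + δ * n / B

/-- SPR.  Spread.

Proof.  `K₀` from LocP.  Let `B = m^2 r + 1`, `G₀` the set of the `g` with `∃ M, C.Special p g M`.  Suppose that the
conclusion is false.  WGT with `T` = pairs `(W, R)`, `Bad (W, R) g = ¬ InSpan C m W R g`, the same `δ`.  Hypothesis of WGT: let `U`,
`w` be given.  If `∑_{G₀} w = 0` (for instance `G₀ = ∅`): any `W ⊆ U` with `B` elements (`#U ≥ n/2 ≥ B`, see below) and `R = 0`.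
Otherwise `μ g = w g/∑ w` for `g ∈ G₀`, `0` elsewhere; as the conclusion is false for `μ`, `U`, there are `W ⊆ U`,
`#W = B` and `R` with `∑_{g not in span} μ g ≤ δ`.
`k = n/(2B)` (natural division), so `n < 2 B (k + 1) ≤ 4 B k` if `k ≥ 1`; `k ≥ 1` (and `n ≥ 2B`): otherwise
`n < 2B`, against `F_out B (K log(s+n))^K < n` when `(K log(s+n))^K ≥ 2` (`n ≥ 1`, `s ≥ 1`, so `log(s+n) ≥ log 2 ≥ 1/2`, `K ≥ 4`;
`F_out ≥ 1` by PathBound).
LocP with `f g = q g + t`: `J` = the bad `j`, `H` = the set of the gates read (given by the hypothesis), `#J ≤ t` because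
`#J ≤ logb 2 s + δ n/B ≤ t`.  So `k ≤ F_out (K₀ log(s+n))^K₀`, `n ≤ 4 B k ≤ F_out B 4 (K₀ log(s+n))^{K₀}`; a contradiction for
`K = 4 (K₀ + 1)`: `4 (K₀ log)^{K₀} ≤ (K log)^K` as `K log ≥ 2`. -/
def St_Spr : Prop :=
  ∀ p d : ℕ, p.Prime → ∃ K : ℕ, ∀ (n s m r t : ℕ) (C : Circuit n s) (q F : Fin s → ℕ) (δ : ℝ),
    2 ≤ m → C.level C.out + 1 ≤ d → C.PathBound p (fun g => m * (q g + t)) F → C.Majority →
    (∀ g M, C.Special p g M → M = m ∧ (univ.filter fun h => (C.gw g h : ZMod m) ≠ 0).card ≤ q g) →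
    0 ≤ δ → Real.logb 2 s + δ * n / (m ^ 2 * r + 1 : ℕ) ≤ t →
    F C.out * ((m ^ 2 * r + 1 : ℕ) * (K * Real.log (s + n)) ^ K) < n →
    ∃ (μ : Fin s → ℝ) (U : Finset (Fin n)), (∀ g, 0 ≤ μ g) ∧ ∑ g, μ g = 1 ∧
      (∀ g, μ g ≠ 0 → ∃ M, C.Special p g M) ∧ n ≤ 2 * U.card ∧
      ∀ (W : Finset (Fin n)) (R : Fin r → Fin n → ZMod m), W ⊆ U → W.card = m ^ 2 * r + 1 →
        δ < ∑ g, (open scoped Classical in if InSpan C m W R g then 0 else μ g)

/-- PAC.  A separated set of variables.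

`d v v'` = the `μ`-measure of the gates in which the coefficients of `v`, `v'` are different.

Proof.  `A` = a subset of `U` of maximal size with `d v v' ≥ δ/B` for all different `v, v' ∈ A` (`B = m^2 + 1`).  Every
`v ∈ U` has distance `< δ/B` from some `u ∈ A` (`u = v` if `v ∈ A`: distance `0`; here `δ > 0`).  If `#A * B < #U` then
some `u ∈ A` has this for more than `B` elements `v` of `U` (`Finset.exists_lt_card_fiberwise_of_mul_lt_card_of_maps_to`);
let `W` be `B` of them.  A gate for which the coefficients are not constant on `W` has a `v ∈ W` with coefficient different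
from the coefficient of `u`, so the measure of these gates is at most `∑_{v ∈ W} d v u ≤ B (δ/B) = δ`.  This contradicts
the hypothesis for `R 0 v = 1` (`a 0` = the common coefficient).  So `#U ≤ B #A`, `n ≤ 2 B #A`. -/
def St_Pac : Prop := ∀ (n s m : ℕ) (C : Circuit n s) (μ : Fin s → ℝ) (U : Finset (Fin n)) (δ : ℝ),
  0 < δ → (∀ g, 0 ≤ μ g) → n ≤ 2 * U.card →
  (∀ (W : Finset (Fin n)) (R : Fin 1 → Fin n → ZMod m), W ⊆ U → W.card = m ^ 2 * 1 + 1 →
    δ < ∑ g, (open scoped Classical in if InSpan C m W R g then 0 else μ g)) →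
  ∃ A ⊆ U, n ≤ 2 * (m ^ 2 + 1) * A.card ∧ ∀ v ∈ A, ∀ v' ∈ A, v ≠ v' →
    δ / (m ^ 2 + 1 : ℕ) ≤ ∑ g, if (C.vw g v : ZMod m) = C.vw g v' then 0 else μ g

/-- SAM.  Sampling.

Proof.  For `e ∈ E` the sum of `∏_{i < T} μ (g i)` over all `g : Fin T → G` such that no `g i` is in `Z e` is
`(1 - μ(Z e))^T ≤ (1 - δ)^T ≤ e^{-δ T}` (`Finset.prod_univ_sum` / `Fintype.piFinset`).  If every `g` with `∏ μ (g i) > 0` misses some
`Z e` then `1 ≤ ∑_e (1 - μ(Z e))^T ≤ #E e^{-δ T} < 1`. -/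
def St_Sam : Prop := ∀ (G E : Type) [Fintype G] [Fintype E] (μ : G → ℝ) (Z : E → G → Prop) (δ : ℝ)
  (T : ℕ), (∀ g, 0 ≤ μ g) → ∑ g, μ g = 1 →
  (∀ e, δ ≤ ∑ g, (open scoped Classical in if Z e g then μ g else 0)) →
  (Fintype.card E : ℝ) < Real.exp (δ * T) →
  ∃ g : Fin T → G, (∀ i, 0 < μ (g i)) ∧ ∀ e, ∃ i, Z e (g i)

/-- SAU.  Sauer and Shelah for vectors over `ZMod m`.

Proof.  `X = Fin T × ZMod m`; to `v ∈ A` belongs the set `{(i, a) : c v i = a}`; these sets are different, a family `𝒜` of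
`#A` subsets of `X`, `#X = T m`.  `Finset.card_le_card_shatterer`, `Finset.card_shatterer_le_sum_vcDim`:
`#A ≤ ∑_{j ≤ vcDim} C(T m, j)`.  If `vcDim ≥ D + 1` then some set of `D + 1` elements `(i, a)` of `X` is shattered (subsets of shattered
sets are shattered), which is excluded.  So `#A ≤ ∑_{j ≤ D} C(T m, j) ≤ (T m + 1)^D` (induction or
`∑_{j ≤ D} C(x, j) ≤ (1 + x)^D`, for instance because `C(x, j) ≤ x^j ≤ C(D, j) x^j` for `j ≤ D`). -/
def St_Sau : Prop := ∀ (V : Type) (A : Finset V) (T m D : ℕ) (c : V → Fin T → ZMod m), 1 ≤ m →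
  (∀ v ∈ A, ∀ v' ∈ A, v ≠ v' → c v ≠ c v') →
  (∀ (i : Fin (D + 1) → Fin T) (a : Fin (D + 1) → ZMod m), ∃ S : Finset (Fin (D + 1)),
    ∀ v ∈ A, ¬ ∀ j, c v (i j) = a j ↔ j ∈ S) →
  A.card ≤ (T * m + 1) ^ D

/-- VCD.  The variables shatter many gates.

Proof.  `K₁` from SPR (for `p`, `d`), may be increased: `K₁ ≥ 4`.  `Λ = log(s+n) ≥ log 2 ≥ 1/2`.  Let `D` be maximal such that
`Shatters p C m D` (`D = 0` is possible if `n ≥ 1`: `S = ∅`; and `2^D ≤ n`).  `δ = 1/(4 m (K₁ Λ)^{K₁})`, `r = 1`, `q = 0`,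
`t = ⌈logb 2 s + δ n/(m^2+1)⌉₊`, `F g = m t + 1` for all `g` (PathBound: special gates read no gates).  If the last
hypothesis of SPR is false: `n ≤ (m t + 1) (m^2 + 1) (K₁ Λ)^{K₁}`, `m t + 1 ≤ m (logb 2 s + 1) + 1 + m δ n/(m^2+1)`, and
`m δ n (K₁ Λ)^{K₁} = n/4`, so `n ≤ 2 (m^2+1) (K₁ Λ)^{K₁} (m (2 Λ + 1) + 1) ≤ (K m Λ)^K`: finished (`D ≥ 0`; the base is `≥ 1`).
Otherwise SPR gives `μ`, `U`, PAC gives `A`, `n ≤ 2 (m^2+1) #A`, with `δ' = δ/(m^2+1)`.  SAM with `E` = the pairs of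
different elements of `A` (`#E ≤ n^2`), `Z (v, v') g` = the coefficients are different, `T = ⌈(2 Λ + 1)/δ'⌉₊`
(`e^{δ' T} ≥ e^{2Λ+1} > n^2`): `T` gates which separate the elements of `A`, all special (`μ > 0`).  SAU with `c v i` = the
coefficient of `v` in `g i`, and `D`: if the hypothesis of SAU about `D + 1` was false, then `Shatters p C m (D+1)`, against
the choice of `D`.  So `#A ≤ (T m + 1)^D` and `n ≤ 2 (m^2+1) (T m + 1)^D ≤ (K m Λ)^{K (D+1)}`, because
`T m + 1 ≤ m ((2Λ+1) 4 m (m^2+1) (K₁Λ)^{K₁} + 1) + 1 ≤ (K m Λ)^K` for suitable `K`. -/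
def St_Vcd : Prop :=
  ∀ p d : ℕ, p.Prime → ∃ K : ℕ, ∀ (n s m : ℕ) (C : Circuit n s), 2 ≤ m →
    C.level C.out + 1 ≤ d → C.Majority →
    (∀ g M, C.Special p g M → M = m ∧ ∀ h, C.gw g h = 0) → 1 ≤ n →
    ∃ D : ℕ, Shatters p C m D ∧ (n : ℝ) ≤ (K * m * Real.log (s + n)) ^ (K * (D + 1))

/-- SGN.  Wirings of small sign rank.

Proof.  Suppose `Shatters p C m D` with `g`, `a`.  For every `i` one of two cases: `a i` is the residue of `1` or not; the
set `{v : C.vw (g i) v = a i}` is `{v : 0 ≤ ⟨y (g i), x v⟩}`, its complement, or trivial (not possible for shattered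
sets as both occur).  So, changing `S`, all sign patterns (`≥ 0` / `< 0`) of the `D` numbers `⟨y (g i), x v⟩` occur.  If
`D > e` the vectors `y (g i)` are linearly dependent: `∑ λ i • y (g i) = 0`, `λ i₀ < 0` for some `i₀` (else `-λ`).  Take `v` with
`⟨y (g i), x v⟩ ≥ 0` iff `λ i ≥ 0`: every term `λ i ⟨y (g i), x v⟩ ≥ 0` and the term of `i₀` is `> 0`, a contradiction. -/
def St_Sgn : Prop := ∀ (n s p m D e : ℕ) (C : Circuit n s) (x : Fin n → Fin e → ℝ)
  (y : Fin s → Fin e → ℝ), 2 ≤ m →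
  (∀ g v, (∃ M, C.Special p g M) → C.vw g v = if 0 ≤ ∑ j, y g j * x v j then 1 else 0) →
  Shatters p C m D → D ≤ e

end Pool.Agent.SPR
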