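import Pool.Agent.SPR.St

/-!
# SPR, second part: wirings `low rank + sparse + small VC dimension`
-/

set_option autoImplicit false

namespace Pool.Agent.SPR

open Finset Pool.Agent.RIG

/-- The coefficient vector of every counting gate with a modulus different from `p` is, modulo `m`,
the sum of a combination of the `r` vectors `R i`, of a vector with at most `f` entries that are not
zero, and of the vector `h g`. -/
def Decomposed {n s : ℕ} (p : ℕ) (C : Circuit n s) (m f : ℕ) {r : ℕ} (R : Fin r → Fin n → ZMod m)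
    (h : Fin s → Fin n → ZMod m) : Prop :=
  ∀ g M, C.Special p g M → ∃ a : Fin r → ZMod m,
    (univ.filter fun v => (C.vw g v : ZMod m) ≠ (∑ i, a i * R i v) + h g v).card ≤ f

/-- The variables shatter `D` counting gates with a modulus different from `p` through the vectors
`h g`: for suitable residues `a i` and every set `S` of these gates there is a variable `v` such that
`h (g i) v = a i` exactly for the `i` in `S`. -/
def Shat {n s : ℕ} (p : ℕ) (C : Circuit n s) (m : ℕ) (h : Fin s → Fin n → ZMod m) (D : ℕ) : Prop :=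
  ∃ (g : Fin D → Fin s) (a : Fin D → ZMod m), (∀ i, ∃ M, C.Special p (g i) M) ∧
    ∀ S : Finset (Fin D), ∃ v : Fin n, ∀ i, h (g i) v = a i ↔ i ∈ S

/-- PAC2.  A separated set of variables, robust form. -/
def St_Pac2 : Prop := ∀ (n s m r f p : ℕ) (C : Circuit n s) (μ : Fin s → ℝ) (U : Finset (Fin n))
  (δ : ℝ) (R : Fin r → Fin n → ZMod m) (h : Fin s → Fin n → ZMod m), 1 ≤ n →
  0 < δ → (∀ g, 0 ≤ μ g) → ∑ g, μ g = 1 → (∀ g, μ g ≠ 0 → ∃ M, C.Special p g M) →
  n ≤ 2 * U.card → Decomposed p C m f R h →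
  (∀ (W : Finset (Fin n)) (R' : Fin (r + 1) → Fin n → ZMod m), W ⊆ U →
    W.card = m ^ 2 * (r + 1) + 1 →
    δ < ∑ g, (open scoped Classical in if InSpan C m W R' g then 0 else μ g)) →
  (n : ℝ) * δ < 8 * (m ^ 2 * (r + 1) + 1 : ℕ) * f ∨
  ∃ A ⊆ U, n ≤ 4 * (m ^ 2 * (r + 1) + 1) * A.card ∧ ∀ v ∈ A, ∀ v' ∈ A, v ≠ v' →
    δ / (2 * (m ^ 2 * (r + 1) + 1 : ℕ)) ≤ ∑ g, if h g v = h g v' then 0 else μ g

/-- VCD2.  The wiring is not the sum of a matrix of low rank, a sparse matrix and a matrix of small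
VC dimension. -/
def St_Vcd2 : Prop :=
  ∀ p d : ℕ, p.Prime → ∃ K : ℕ, ∀ (n s m r f D : ℕ) (C : Circuit n s)
    (R : Fin r → Fin n → ZMod m) (h : Fin s → Fin n → ZMod m), 2 ≤ m →
    C.level C.out + 1 ≤ d → C.Majority →
    (∀ g M, C.Special p g M → M = m ∧ ∀ h', C.gw g h' = 0) → 1 ≤ n →
    Decomposed p C m f R h → ¬ Shat p C m h (D + 1) →
    (n : ℝ) ≤ (r + 1) * (f + ((r + 1) * (K * m * Real.log (s + n)) ^ K) ^ D) *
      (K * m * Real.log (s + n)) ^ K

end Pool.Agent.SPR
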