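import Pool.Agent.SPR.St

/-!
# SPR / Vcd: the variables shatter many gates
-/

set_option autoImplicit false

namespace Pool.Agent.SPR

open Finset Pool.Agent.RIG

private theorem Vcd_zero {n s : ℕ} (p : ℕ) (C : Circuit n s) (m : ℕ) (hn : 1 ≤ n) :
    Shatters p C m 0 :=
  ⟨fun i => i.elim0, fun i => i.elim0, fun i => i.elim0,
    fun _ => ⟨⟨0, hn⟩, fun i => i.elim0⟩⟩

private theorem Vcd_le {n s : ℕ} (p : ℕ) (C : Circuit n s) (m D : ℕ) (h : Shatters p C m D) :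
    D ≤ n := by
  classical
  obtain ⟨g, a, -, hS⟩ := h
  choose v hv using hS
  have hinj : Function.Injective v := by
    intro S S' hSS
    ext i
    rw [← hv S i, ← hv S' i, hSS]
  have h1 := Fintype.card_le_of_injective v hinj
  rw [Fintype.card_finset, Fintype.card_fin, Fintype.card_fin] at h1
  exact (Nat.lt_two_pow_self).le.trans h1

private theorem Vcd_max {n s : ℕ} (p : ℕ) (C : Circuit n s) (m : ℕ) (hn : 1 ≤ n) :
    ∃ D, Shatters p C m D ∧ ¬ Shatters p C m (D + 1) := by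
  classical
  refine ⟨Nat.findGreatest (fun D => Shatters p C m D) n, ?_, fun h => ?_⟩
  · exact Nat.findGreatest_spec (P := fun D => Shatters p C m D) (Nat.zero_le n)
      (Vcd_zero p C m hn)
  · have h1 := Vcd_le p C m _ h
    have h2 := Nat.le_findGreatest (P := fun D => Shatters p C m D) h1 h
    omega

/-- the numerical bounds -/
private theorem Vcd_num (M : ℕ) (m : ℕ) (Λ X β : ℝ) (hM : 4 ≤ M) (hm : 2 ≤ m) (hΛ : 0.69 < Λ)
    (hX : X = (M * Λ) ^ M) (hβ : β = (M + 8 : ℕ) * m * Λ) :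
    1 ≤ X ∧ 2 ≤ β ∧ (m : ℝ) + 1 ≤ β ∧ (2 * Λ + 1) ≤ β ∧ 4 ≤ β ∧ ((m : ℝ) ^ 2 + 1) ≤ β ^ 2 ∧
      X ≤ β ^ M ∧ m * (2 * Λ + 1) + 1 ≤ β := by
  have hMR : (4 : ℝ) ≤ M := by exact_mod_cast hM
  have hmR : (2 : ℝ) ≤ m := by exact_mod_cast hm
  have hK : (12 : ℝ) ≤ (M + 8 : ℕ) := by
    push_cast
    linarith
  have hm0 : (0 : ℝ) ≤ m := by linarith
  have hΛ0 : 0 ≤ Λ := by linarith
  have hmΛ : 0.69 * m ≤ m * Λ := by
    have := mul_le_mul_of_nonneg_left hΛ.le hm0
    linarith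
  have h2Λ : 2 * Λ ≤ m * Λ := mul_le_mul_of_nonneg_right hmR hΛ0
  have hb1 : 12 * (m * Λ) ≤ β := by
    rw [hβ, mul_assoc]
    exact mul_le_mul_of_nonneg_right hK (by positivity)
  have hML : 1 ≤ M * Λ := by
    have := mul_le_mul_of_nonneg_right hMR hΛ0
    linarith
  refine ⟨?_, by linarith, by linarith, by linarith, by linarith, ?_, ?_, by linarith⟩
  · rw [hX]
    exact one_le_pow₀ hML
  · have h1 : 8 * (m : ℝ) ≤ β := by linarith
    have h2 := pow_le_pow_left₀ (by positivity) h1 2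
    have h3 : (8 * (m : ℝ)) ^ 2 = 64 * (m : ℝ) ^ 2 := by ring
    have h4 : (1 : ℝ) ≤ (m : ℝ) ^ 2 := one_le_pow₀ (by linarith)
    linarith
  · rw [hX]
    apply pow_le_pow_left₀ (by linarith)
    rw [hβ]
    push_cast
    have h2 : (M : ℝ) * Λ ≤ (M + 8) * Λ := mul_le_mul_of_nonneg_right (by linarith) hΛ0
    have h3 : 0 ≤ (M + 8 : ℝ) * Λ := by positivity
    calc (M : ℝ) * Λ ≤ (M + 8) * Λ := h2
      _ ≤ ((M + 8) * Λ) * m := le_mul_of_one_le_right h3 (by linarith)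
      _ = (M + 8) * m * Λ := by ring

/-- **VCD.** -/
theorem thm_Vcd (hSpr : St_Spr) (hPac : St_Pac) (hSam : St_Sam) (hSau : St_Sau) : St_Vcd := by
  classical
  intro p d hp
  obtain ⟨K₁, hK₁⟩ := hSpr p d hp
  obtain ⟨M, hM⟩ : ∃ M : ℕ, M = max K₁ 4 := ⟨_, rfl⟩
  have hM4 : 4 ≤ M := by
    rw [hM]
    exact le_max_right _ _
  have hMK : K₁ ≤ M := by
    rw [hM]
    exact le_max_left _ _
  refine ⟨M + 8, ?_⟩
  intro n s m C hm hd hMaj hSp hn
  obtain ⟨D, hD1, hD2⟩ := Vcd_max p C m hn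
  refine ⟨D, hD1, ?_⟩
  have hs : 1 ≤ s := C.out.pos
  have hsR : (1 : ℝ) ≤ s := by exact_mod_cast hs
  have hnR : (1 : ℝ) ≤ n := by exact_mod_cast hn
  have hmR : (2 : ℝ) ≤ m := by exact_mod_cast hm
  have hl2 : (0.69 : ℝ) < Real.log 2 := by
    have := Real.log_two_gt_d9
    linarith
  obtain ⟨Λ, hΛ⟩ : ∃ Λ : ℝ, Λ = Real.log (s + n) := ⟨_, rfl⟩
  have hΛ2 : 0.69 < Λ := by
    rw [hΛ]
    exact hl2.trans_le (Real.log_le_log (by norm_num) (by linarith))
  obtain ⟨X, hX⟩ : ∃ X : ℝ, X = (M * Λ) ^ M := ⟨_, rfl⟩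
  obtain ⟨β, hβ⟩ : ∃ β : ℝ, β = (M + 8 : ℕ) * m * Λ := ⟨_, rfl⟩
  obtain ⟨hX1, hβ2, hβm, hβΛ, hβ4, hβB, hβX, hβc⟩ := Vcd_num M m Λ X β hM4 hm hΛ2 hX hβ
  rw [← hΛ, ← hβ]
  have hXK : (K₁ * Λ) ^ K₁ ≤ X := by
    have a0 : (K₁ : ℝ) ≤ M := by exact_mod_cast hMK
    have a1 : (K₁ : ℝ) * Λ ≤ M * Λ := mul_le_mul_of_nonneg_right a0 (by linarith)
    have a2 : (1 : ℝ) ≤ M * Λ := by
      have h4 : (4 : ℝ) ≤ M := by exact_mod_cast hM4
      have h5 := mul_le_mul_of_nonneg_right h4 (show 0 ≤ Λ by linarith)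
      linarith
    rw [hX]
    refine (pow_le_pow_left₀ (by positivity) a1 K₁).trans ?_
    exact pow_le_pow_right₀ a2 hMK
  have hX0 : 0 < X := by linarith
  have hβ0 : 0 < β := by linarith
  have hβ1 : 1 ≤ β := by linarith
  obtain ⟨b, hb⟩ : ∃ b : ℝ, b = ((m ^ 2 * 1 + 1 : ℕ) : ℝ) := ⟨_, rfl⟩
  have hb' : b = (m : ℝ) ^ 2 + 1 := by
    rw [hb]
    push_cast
    ring
  have hb1 : 1 ≤ b := by
    rw [hb']
    linarith [sq_nonneg (m : ℝ)]
  have hb0 : 0 < b := by linarith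
  obtain ⟨δ, hδ⟩ : ∃ δ : ℝ, δ = 1 / (4 * m * X) := ⟨_, rfl⟩
  have hδ0 : 0 < δ := by
    rw [hδ]
    positivity
  have hlg0 : 0 ≤ Real.logb 2 s := Real.logb_nonneg (by norm_num) hsR
  have hlg : Real.logb 2 s ≤ 2 * Λ := by
    have h1 : Real.log s ≤ Λ := by
      rw [hΛ]
      exact Real.log_le_log (by linarith) (by linarith)
    have h0 : 0 ≤ Real.log s := Real.log_nonneg hsR
    rw [Real.logb, div_le_iff₀ (by linarith)]
    have h2 := mul_le_mul_of_nonneg_left hl2.le (show 0 ≤ 2 * Λ by linarith)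
    linarith
  obtain ⟨t, ht⟩ : ∃ t : ℕ, t = ⌈Real.logb 2 s + δ * n / b⌉₊ := ⟨_, rfl⟩
  have ht1 : Real.logb 2 s + δ * n / b ≤ t := by
    rw [ht]
    exact Nat.le_ceil _
  have ht2 : (t : ℝ) ≤ Real.logb 2 s + δ * n / b + 1 := by
    rw [ht]
    exact (Nat.ceil_lt_add_one (by positivity)).le
  by_cases hbig : ((m * t + 1 : ℕ) : ℝ) * (b * (K₁ * Λ) ^ K₁) < n
  · -- the generic case
    have hPB : C.PathBound p (fun _ => m * (0 + t)) (fun _ => m * t + 1) := by
      intro g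
      refine ⟨Nat.le_add_left 1 _, fun h _ => le_rfl, fun M' hg => ⟨?_, fun h hh => ?_⟩⟩
      · show m * (0 + t) + 1 ≤ m * t + 1
        rw [zero_add]
      · exact absurd ((hSp g M' hg).2 h) hh
    obtain ⟨μ, U, hμ0, hμ1, hμS, hU, hspan⟩ := hK₁ n s m 1 t C (fun _ => 0)
      (fun _ => m * t + 1) δ hm hd hPB hMaj (fun g M' hg => by
        refine ⟨(hSp g M' hg).1, ?_⟩
        rw [Nat.le_zero, card_eq_zero, filter_eq_empty_iff]
        intro h _
        rw [(hSp g M' hg).2 h]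
        simp) hδ0.le (by rw [← hb]; exact ht1) (by rw [← hb, ← hΛ]; exact hbig)
    obtain ⟨A, hAU, hA1, hA2⟩ := hPac n s m C μ U δ hδ0 hμ0 hU hspan
    have hb2 : ((m ^ 2 + 1 : ℕ) : ℝ) = b := by
      rw [hb']
      push_cast
      ring
    rw [hb2] at hA2
    set E := {e : Fin n × Fin n // e.1 ∈ A ∧ e.2 ∈ A ∧ e.1 ≠ e.2} with hE
    set T := ⌈(2 * Λ + 1) / (δ / b)⌉₊ with hT
    have hδb : 0 < δ / b := by positivity
    have hT1 : (2 * Λ + 1) ≤ δ / b * T := by
      have h1 : (2 * Λ + 1) / (δ / b) ≤ T := Nat.le_ceil _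
      rw [div_le_iff₀ hδb] at h1
      linarith
    have hcard : (Fintype.card E : ℝ) < Real.exp (δ / b * T) := by
      have h1 : Fintype.card E ≤ n * n := by
        have := Fintype.card_subtype_le
          (fun e : Fin n × Fin n => e.1 ∈ A ∧ e.2 ∈ A ∧ e.1 ≠ e.2)
        rwa [Fintype.card_prod, Fintype.card_fin] at this
      have h2 : (Fintype.card E : ℝ) ≤ n * n := by exact_mod_cast h1
      have h3 : Real.exp (2 * Λ) = (s + n) * (s + n) := by
        rw [two_mul, Real.exp_add, hΛ, Real.exp_log (by linarith)]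
      have h4 : Real.exp (2 * Λ) < Real.exp (δ / b * T) := by
        apply Real.exp_lt_exp.2
        linarith
      have h5 : (n : ℝ) * n ≤ (s + n) * (s + n) :=
        mul_le_mul (by linarith) (by linarith) (by linarith) (by linarith)
      linarith
    obtain ⟨g, hg1, hg2⟩ := hSam (Fin s) E μ
      (fun e g => ((C.vw g e.1.1 : ZMod m) ≠ C.vw g e.1.2)) (δ / b) T hμ0 hμ1
      (fun e => by
        refine (hA2 e.1.1 e.2.1 e.1.2 e.2.2.1 e.2.2.2).trans (le_of_eq ?_)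
        apply sum_congr rfl
        intro g _
        by_cases hc : (C.vw g e.1.1 : ZMod m) = C.vw g e.1.2
        · rw [if_pos hc, if_neg (not_not.2 hc)]
        · rw [if_neg hc, if_pos hc]) hcard
    have hsau := hSau (Fin n) A T m D (fun v i => (C.vw (g i) v : ZMod m)) (by omega)
      (fun v hv v' hv' hne heq => by
        obtain ⟨i, hi⟩ := hg2 ⟨(v, v'), hv, hv', hne⟩
        exact hi (congrFun heq i))
      (fun i a => by
        by_contra hcon
        push Not at hcon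
        apply hD2
        refine ⟨fun j => g (i j), a, fun j => hμS _ (hg1 (i j)).ne', fun S => ?_⟩
        obtain ⟨v, -, hv⟩ := hcon S
        exact ⟨v, hv⟩)
    have hTup : (T : ℝ) ≤ (2 * Λ + 1) * 4 * m * X * b + 1 := by
      have h1 : (T : ℝ) < (2 * Λ + 1) / (δ / b) + 1 := Nat.ceil_lt_add_one (by positivity)
      have h2 : (2 * Λ + 1) / (δ / b) = (2 * Λ + 1) * 4 * m * X * b := by
        rw [hδ]
        field_simp
      linarith
    have hbβ : b ≤ β ^ 2 := by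
      rw [hb']
      exact hβB
    have hmβ : (m : ℝ) ≤ β := by linarith
    have hTm : (T : ℝ) * m + 1 ≤ β ^ (M + 8) := by
      have h1 : (2 * Λ + 1) * 4 * m * X * b ≤ β * β * β * β ^ M * β ^ 2 := by
        gcongr
      have h2 : (T : ℝ) * m ≤ (β * β * β * β ^ M * β ^ 2 + 1) * m :=
        mul_le_mul_of_nonneg_right (by linarith) (by linarith)
      have h3 : (β * β * β * β ^ M * β ^ 2 + 1) * m + 1 ≤
          β * β * β * β ^ M * β ^ 2 * β + β := by
        have h4 : β * β * β * β ^ M * β ^ 2 * m ≤ β * β * β * β ^ M * β ^ 2 * β :=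
          mul_le_mul_of_nonneg_left hmβ (by positivity)
        linarith
      have h5 : β * β * β * β ^ M * β ^ 2 * β = β ^ (M + 6) := by ring
      have h6 : β ≤ β ^ (M + 6) := le_self_pow₀ hβ1 (by omega)
      have h7 : 2 * β ^ (M + 6) ≤ β ^ (M + 8) := by
        have h8 : β ^ (M + 8) = β ^ (M + 6) * (β * β) := by ring
        rw [h8]
        have h9 : (2 : ℝ) ≤ β * β := by
          have := mul_le_mul hβ2 hβ1 (by norm_num) hβ0.le
          linarith
        have h10 := mul_le_mul_of_nonneg_left h9 (pow_pos hβ0 (M + 6)).le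
        linarith
      linarith
    have hAR : (A.card : ℝ) ≤ (β ^ (M + 8)) ^ D := by
      have h1 : (A.card : ℝ) ≤ ((T : ℝ) * m + 1) ^ D := by exact_mod_cast hsau
      exact h1.trans (pow_le_pow_left₀ (by positivity) hTm D)
    have hnA : (n : ℝ) ≤ 2 * b * A.card := by
      have h1 : (n : ℝ) ≤ 2 * ((m ^ 2 + 1 : ℕ) : ℝ) * A.card := by exact_mod_cast hA1
      rwa [hb2] at h1
    calc (n : ℝ) ≤ 2 * b * A.card := hnA
      _ ≤ (β * β ^ 2) * (β ^ (M + 8)) ^ D := by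
          apply mul_le_mul _ hAR (Nat.cast_nonneg _) (by positivity)
          exact mul_le_mul hβ2 hbβ hb0.le hβ0.le
      _ = β ^ 3 * β ^ ((M + 8) * D) := by rw [← pow_mul]; ring
      _ ≤ β ^ (M + 8) * β ^ ((M + 8) * D) := by
          apply mul_le_mul_of_nonneg_right _ (by positivity)
          exact pow_le_pow_right₀ hβ1 (by omega)
      _ = β ^ ((M + 8) * (D + 1)) := by rw [← pow_add]; ring
  · -- few variables
    rw [not_lt] at hbig
    have h1 : (n : ℝ) ≤ ((m * t + 1 : ℕ) : ℝ) * (b * X) := by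
      refine hbig.trans ?_
      apply mul_le_mul_of_nonneg_left _ (Nat.cast_nonneg _)
      exact mul_le_mul_of_nonneg_left hXK hb0.le
    have h2 : ((m * t + 1 : ℕ) : ℝ) ≤ (m * (2 * Λ + 1) + 1) + m * (δ * n / b) := by
      push_cast
      have h3 : (m : ℝ) * t ≤ m * (2 * Λ + δ * n / b + 1) :=
        mul_le_mul_of_nonneg_left (by linarith) (by linarith)
      linarith
    have h4 : m * (δ * n / b) * (b * X) = n / 4 := by
      rw [hδ]
      field_simp
    have h5 : (n : ℝ) ≤ (m * (2 * Λ + 1) + 1) * (b * X) + n / 4 := by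
      refine h1.trans ?_
      have h6 := mul_le_mul_of_nonneg_right h2 (show 0 ≤ b * X by positivity)
      rw [add_mul, h4] at h6
      exact h6
    have h7 : (m * (2 * Λ + 1) + 1) * (b * X) ≤ β * (β ^ 2 * β ^ M) := by
      have : b ≤ β ^ 2 := by
        rw [hb']
        exact hβB
      gcongr
    have h8 : (n : ℝ) ≤ β * (β * (β ^ 2 * β ^ M)) := by
      have h9 : 0 ≤ β * (β ^ 2 * β ^ M) := by positivity
      have h10 : 2 * (β * (β ^ 2 * β ^ M)) ≤ β * (β * (β ^ 2 * β ^ M)) :=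
        mul_le_mul_of_nonneg_right hβ2 h9
      linarith
    calc (n : ℝ) ≤ β * (β * (β ^ 2 * β ^ M)) := h8
      _ = β ^ (M + 4) := by ring
      _ ≤ β ^ ((M + 8) * (D + 1)) := by
          apply pow_le_pow_right₀ hβ1
          exact le_trans (by omega : M + 4 ≤ M + 8) (Nat.le_mul_of_pos_right _ (Nat.succ_pos D))

end Pool.Agent.SPR
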