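import Pool.Agent.SPR.St2

/-!
# SPR / Vcd2: not low rank + sparse + small VC dimension
-/

set_option autoImplicit false

namespace Pool.Agent.SPR

open Finset Pool.Agent.RIG

/-- the numerical bounds -/
private theorem Vcd2_num (M : ℕ) (m : ℕ) (Λ X β : ℝ) (hM : 4 ≤ M) (hm : 2 ≤ m) (hΛ : 0.69 < Λ)
    (hX : X = (M * Λ) ^ M) (hβ : β = (M + 8 : ℕ) * m * Λ) :
    1 ≤ X ∧ 16 ≤ β ∧ 8 * (m : ℝ) ≤ β ∧ (2 * Λ + 1) ≤ β ∧ ((m : ℝ) ^ 2 + 1) ≤ β ^ 2 ∧
      X ≤ β ^ M ∧ m * (2 * Λ + 1) + 1 ≤ β := by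
  have hMR : (4 : ℝ) ≤ M := by exact_mod_cast hM
  have hmR : (2 : ℝ) ≤ m := by exact_mod_cast hm
  have hK : (12 : ℝ) ≤ (M + 8 : ℕ) := by
    push_cast
    linarith
  have hm0 : (0 : ℝ) ≤ m := by linarith
  have hΛ0 : 0 ≤ Λ := by linarith
  have hmΛ : 0.69 * m ≤ m * Λ := by
    have := mul_le_mul_of_nonneg_left hΛ.le hm0
    linarith
  have h2Λ : 2 * Λ ≤ m * Λ := mul_le_mul_of_nonneg_right hmR hΛ0
  have hb1 : 12 * (m * Λ) ≤ β := by
    rw [hβ, mul_assoc]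
    exact mul_le_mul_of_nonneg_right hK (by positivity)
  have hML : 1 ≤ M * Λ := by
    have := mul_le_mul_of_nonneg_right hMR hΛ0
    linarith
  have h1 : 8 * (m : ℝ) ≤ β := by linarith
  refine ⟨?_, by linarith, h1, by linarith, ?_, ?_, by linarith⟩
  · rw [hX]
    exact one_le_pow₀ hML
  · have h2 := pow_le_pow_left₀ (by positivity) h1 2
    have h3 : (8 * (m : ℝ)) ^ 2 = 64 * (m : ℝ) ^ 2 := by ring
    have h4 : (1 : ℝ) ≤ (m : ℝ) ^ 2 := one_le_pow₀ (by linarith)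
    linarith
  · rw [hX]
    apply pow_le_pow_left₀ (by linarith)
    rw [hβ]
    push_cast
    have h2 : (M : ℝ) * Λ ≤ (M + 8) * Λ := mul_le_mul_of_nonneg_right (by linarith) hΛ0
    have h3 : 0 ≤ (M + 8 : ℝ) * Λ := by positivity
    calc (M : ℝ) * Λ ≤ (M + 8) * Λ := h2
      _ ≤ ((M + 8) * Λ) * m := le_mul_of_one_le_right h3 (by linarith)
      _ = (M + 8) * m * Λ := by ring

/-- the last estimates, with `ρ = r + 1` -/
private theorem Vcd2_fin (M D : ℕ) (ρ f β B X m Λ T A n δ : ℝ) (hρ : 1 ≤ ρ) (hf : 0 ≤ f)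
    (hβ : 16 ≤ β) (hm : 2 ≤ m) (hmβ : 8 * m ≤ β) (hΛ : 0 < Λ) (hΛβ : 2 * Λ + 1 ≤ β)
    (hB0 : 0 < B) (hB : B ≤ ρ * β ^ 2) (hX0 : 0 < X) (hX : X ≤ β ^ M)
    (hcβ : m * (2 * Λ + 1) + 1 ≤ β) (hδ : δ = 1 / (4 * m * X)) (hT0 : 0 ≤ T)
    (hT : T ≤ (2 * Λ + 1) / (δ / (2 * B)) + 1) (hn0 : 0 ≤ n)
    (h : n ≤ (m * (2 * Λ + 1) + 1) * (B * X) + n / 4 ∨ n * δ < 8 * B * f ∨
      (n ≤ 4 * B * A ∧ A ≤ (T * m + 1) ^ D)) :
    n ≤ ρ * (f + (ρ * β ^ (M + 8)) ^ D) * β ^ (M + 8) := by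
  have hβ0 : 0 < β := by linarith
  have hβ1 : 1 ≤ β := by linarith
  have hρ0 : 0 < ρ := by linarith
  obtain ⟨Y, hY⟩ : ∃ Y : ℝ, Y = β ^ (M + 8) := ⟨_, rfl⟩
  have hY1 : 1 ≤ Y := by
    rw [hY]
    exact one_le_pow₀ hβ1
  have hY0 : 0 < Y := by linarith
  have hρY : 1 ≤ ρ * Y := by
    have := mul_le_mul hρ hY1 (by norm_num) hρ0.le
    linarith
  have hYD : 1 ≤ (ρ * Y) ^ D := one_le_pow₀ hρY
  rw [← hY]
  rcases h with h | h | ⟨h, hA⟩
  · have h1 : (m * (2 * Λ + 1) + 1) * (B * X) ≤ β * (ρ * β ^ 2 * β ^ M) := by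
      gcongr
    have h2 : n ≤ ρ * (2 * β ^ (M + 3)) := by
      have e : β * (ρ * β ^ 2 * β ^ M) = ρ * β ^ (M + 3) := by ring
      rw [e] at h1
      have h3 : 0 ≤ ρ * β ^ (M + 3) := by positivity
      linarith
    have h4 : 2 * β ^ (M + 3) ≤ Y := by
      have e : Y = β ^ (M + 3) * β ^ 5 := by
        rw [hY]
        ring
      have h5 : (2 : ℝ) ≤ β ^ 5 := by
        have : β ^ 1 ≤ β ^ 5 := pow_le_pow_right₀ hβ1 (by norm_num)
        linarith
      have h6 := mul_le_mul_of_nonneg_left h5 (pow_pos hβ0 (M + 3)).le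
      rw [e]
      linarith
    have h7 : 1 ≤ f + (ρ * Y) ^ D := by linarith
    calc n ≤ ρ * (2 * β ^ (M + 3)) := h2
      _ ≤ ρ * Y := mul_le_mul_of_nonneg_left h4 hρ0.le
      _ ≤ ρ * (f + (ρ * Y) ^ D) * Y := by
          have h8 := mul_le_mul_of_nonneg_left h7 (show 0 ≤ ρ * Y by positivity)
          linarith
  · have hmX : 0 < 4 * m * X := by positivity
    have h1 : n < 8 * B * f * (4 * m * X) := by
      rw [hδ, mul_one_div, div_lt_iff₀ hmX] at h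
      exact h
    have h2 : 8 * B * f * (4 * m * X) = B * (32 * m) * X * f := by ring
    have h3 : 32 * m ≤ β * β := by
      have := mul_le_mul hβ hmβ (by positivity) hβ0.le
      linarith
    have h4 : B * (32 * m) * X * f ≤ ρ * β ^ 2 * (β * β) * β ^ M * f := by
      gcongr
    have e : ρ * β ^ 2 * (β * β) * β ^ M * f = ρ * f * β ^ (M + 4) := by ring
    have h5 : β ^ (M + 4) ≤ Y := by
      rw [hY]
      exact pow_le_pow_right₀ hβ1 (by omega)
    have h6 : ρ * f * β ^ (M + 4) ≤ ρ * f * Y :=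
      mul_le_mul_of_nonneg_left h5 (by positivity)
    have h7 : ρ * f * Y ≤ ρ * (f + (ρ * Y) ^ D) * Y := by
      apply mul_le_mul_of_nonneg_right _ hY0.le
      apply mul_le_mul_of_nonneg_left _ hρ0.le
      linarith
    rw [e] at h4
    linarith
  · have hT2 : T ≤ (2 * Λ + 1) * (8 * m) * B * X + 1 := by
      have e : (2 * Λ + 1) / (δ / (2 * B)) = (2 * Λ + 1) * (8 * m) * B * X := by
        rw [hδ]
        field_simp
        ring
      rw [e] at hT
      exact hT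
    have hmβ' : m ≤ β := by linarith
    have hTm : T * m + 1 ≤ ρ * Y := by
      have h1 : (2 * Λ + 1) * (8 * m) * B * X ≤ β * β * (ρ * β ^ 2) * β ^ M := by
        gcongr
      have e1 : β * β * (ρ * β ^ 2) * β ^ M = ρ * β ^ (M + 4) := by ring
      rw [e1] at h1
      have h2 : T * m ≤ (ρ * β ^ (M + 4) + 1) * β := by
        apply mul_le_mul (by linarith) hmβ' (by linarith) (by positivity)
      have e2 : (ρ * β ^ (M + 4) + 1) * β = ρ * β ^ (M + 5) + β := by ring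
      rw [e2] at h2
      have h3 : β + 1 ≤ ρ * β ^ (M + 5) := by
        have h4 : β ^ 2 ≤ β ^ (M + 5) := pow_le_pow_right₀ hβ1 (by omega)
        have h5 : β ^ (M + 5) ≤ ρ * β ^ (M + 5) := le_mul_of_one_le_left (by positivity) hρ
        have h6 : β + 1 ≤ β ^ 2 := by
          have := mul_le_mul_of_nonneg_right hβ hβ0.le
          rw [sq]
          linarith
        linarith
      have h7 : 2 * (ρ * β ^ (M + 5)) ≤ ρ * Y := by
        have e3 : ρ * Y = (ρ * β ^ (M + 5)) * β ^ 3 := by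
          rw [hY]
          ring
        have h8 : (2 : ℝ) ≤ β ^ 3 := by
          have : β ^ 1 ≤ β ^ 3 := pow_le_pow_right₀ hβ1 (by norm_num)
          linarith
        have h9 := mul_le_mul_of_nonneg_left h8 (show 0 ≤ ρ * β ^ (M + 5) by positivity)
        rw [e3]
        linarith
      linarith
    have hA2 : A ≤ (ρ * Y) ^ D :=
      hA.trans (pow_le_pow_left₀ (by positivity) hTm D)
    have h10 : n ≤ 4 * B * (ρ * Y) ^ D :=
      h.trans (mul_le_mul_of_nonneg_left hA2 (by positivity))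
    have h11 : 4 * B ≤ ρ * Y := by
      have h12 : 4 * B ≤ 4 * (ρ * β ^ 2) := by linarith
      have e4 : ρ * Y = (ρ * β ^ 2) * β ^ (M + 6) := by
        rw [hY]
        ring
      have h13 : (4 : ℝ) ≤ β ^ (M + 6) := by
        have : β ^ 1 ≤ β ^ (M + 6) := pow_le_pow_right₀ hβ1 (by omega)
        linarith
      have h14 := mul_le_mul_of_nonneg_left h13 (show 0 ≤ ρ * β ^ 2 by positivity)
      rw [e4]
      linarith
    have h15 : 4 * B * (ρ * Y) ^ D ≤ ρ * Y * (ρ * Y) ^ D :=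
      mul_le_mul_of_nonneg_right h11 (by positivity)
    have h16 : ρ * Y * (ρ * Y) ^ D ≤ ρ * (f + (ρ * Y) ^ D) * Y := by
      have : 0 ≤ ρ * Y * f := by positivity
      linarith
    linarith

/-- **VCD2.** -/
theorem thm_Vcd2 (hSpr : St_Spr) (hPac : St_Pac2) (hSam : St_Sam) (hSau : St_Sau) :
    St_Vcd2 := by
  classical
  intro p d hp
  obtain ⟨K₁, hK₁⟩ := hSpr p d hp
  obtain ⟨M, hM⟩ : ∃ M : ℕ, M = max K₁ 4 := ⟨_, rfl⟩
  have hM4 : 4 ≤ M := by
    rw [hM]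
    exact le_max_right _ _
  have hMK : K₁ ≤ M := by
    rw [hM]
    exact le_max_left _ _
  refine ⟨M + 8, ?_⟩
  intro n s m r f D C R h hm hd hMaj hSp hn hdec hD
  have hs : 1 ≤ s := C.out.pos
  have hsR : (1 : ℝ) ≤ s := by exact_mod_cast hs
  have hnR : (1 : ℝ) ≤ n := by exact_mod_cast hn
  have hmR : (2 : ℝ) ≤ m := by exact_mod_cast hm
  have hl2 : (0.69 : ℝ) < Real.log 2 := by
    have := Real.log_two_gt_d9
    linarith
  obtain ⟨Λ, hΛ⟩ : ∃ Λ : ℝ, Λ = Real.log (s + n) := ⟨_, rfl⟩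
  have hΛ2 : 0.69 < Λ := by
    rw [hΛ]
    exact hl2.trans_le (Real.log_le_log (by norm_num) (by linarith))
  obtain ⟨X, hX⟩ : ∃ X : ℝ, X = (M * Λ) ^ M := ⟨_, rfl⟩
  obtain ⟨β, hβ⟩ : ∃ β : ℝ, β = (M + 8 : ℕ) * m * Λ := ⟨_, rfl⟩
  obtain ⟨hX1, hβ16, hβm, hβΛ, hβB, hβX, hβc⟩ := Vcd2_num M m Λ X β hM4 hm hΛ2 hX hβ
  rw [← hΛ, ← hβ]
  have hXK : (K₁ * Λ) ^ K₁ ≤ X := by
    have a0 : (K₁ : ℝ) ≤ M := by exact_mod_cast hMK
    have a1 : (K₁ : ℝ) * Λ ≤ M * Λ := mul_le_mul_of_nonneg_right a0 (by linarith)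
    have a2 : (1 : ℝ) ≤ M * Λ := by
      have h4 : (4 : ℝ) ≤ M := by exact_mod_cast hM4
      have h5 := mul_le_mul_of_nonneg_right h4 (show 0 ≤ Λ by linarith)
      linarith
    rw [hX]
    refine (pow_le_pow_left₀ (mul_nonneg (Nat.cast_nonneg _) (by linarith)) a1 K₁).trans ?_
    exact pow_le_pow_right₀ a2 hMK
  have hX0 : 0 < X := by linarith
  have hβ0 : 0 < β := by linarith
  obtain ⟨b, hb⟩ : ∃ b : ℝ, b = ((m ^ 2 * (r + 1) + 1 : ℕ) : ℝ) := ⟨_, rfl⟩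
  have hrR : (0 : ℝ) ≤ r := Nat.cast_nonneg r
  have hb' : b = (m : ℝ) ^ 2 * (r + 1) + 1 := by
    rw [hb]
    push_cast
    ring
  have hb1 : 1 ≤ b := by
    rw [hb']
    have : 0 ≤ (m : ℝ) ^ 2 * (r + 1) := by positivity
    linarith
  have hb0 : 0 < b := by linarith
  have hbβ : b ≤ (r + 1) * β ^ 2 := by
    rw [hb']
    have h1 := mul_le_mul_of_nonneg_left hβB (show 0 ≤ (r : ℝ) + 1 by linarith)
    linarith
  obtain ⟨δ, hδ⟩ : ∃ δ : ℝ, δ = 1 / (4 * m * X) := ⟨_, rfl⟩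
  have hδ0 : 0 < δ := by
    rw [hδ]
    positivity
  have hlg0 : 0 ≤ Real.logb 2 s := Real.logb_nonneg (by norm_num) hsR
  have hlg : Real.logb 2 s ≤ 2 * Λ := by
    have h1 : Real.log s ≤ Λ := by
      rw [hΛ]
      exact Real.log_le_log (by linarith) (by linarith)
    have h0 : 0 ≤ Real.log s := Real.log_nonneg hsR
    rw [Real.logb, div_le_iff₀ (by linarith)]
    have h2 := mul_le_mul_of_nonneg_left hl2.le (show 0 ≤ 2 * Λ by linarith)
    linarith
  obtain ⟨t, ht⟩ : ∃ t : ℕ, t = ⌈Real.logb 2 s + δ * n / b⌉₊ := ⟨_, rfl⟩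
  have ht1 : Real.logb 2 s + δ * n / b ≤ t := by
    rw [ht]
    exact Nat.le_ceil _
  have ht2 : (t : ℝ) ≤ Real.logb 2 s + δ * n / b + 1 := by
    rw [ht]
    exact (Nat.ceil_lt_add_one (by positivity)).le
  obtain ⟨T, hT⟩ : ∃ T : ℕ, T = ⌈(2 * Λ + 1) / (δ / (2 * b))⌉₊ := ⟨_, rfl⟩
  have hδb : 0 < δ / (2 * b) := by positivity
  have hTle : (T : ℝ) ≤ (2 * Λ + 1) / (δ / (2 * b)) + 1 := by
    rw [hT]
    exact (Nat.ceil_lt_add_one (by positivity)).le
  -- it is enough to have one of three inequalities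
  suffices hsuf : ((n : ℝ) ≤ (m * (2 * Λ + 1) + 1) * (b * X) + n / 4 ∨ n * δ < 8 * b * f ∨
      ∃ A : ℝ, (n : ℝ) ≤ 4 * b * A ∧ A ≤ ((T : ℝ) * m + 1) ^ D) by
    rcases hsuf with h1 | h1 | ⟨A, h1⟩
    · exact Vcd2_fin M D (r + 1) f β b X m Λ T 0 n δ (by linarith) (Nat.cast_nonneg _) hβ16 hmR
        hβm (by linarith) hβΛ hb0 hbβ hX0 hβX hβc hδ (Nat.cast_nonneg _) hTle
        (Nat.cast_nonneg _) (Or.inl h1)
    · exact Vcd2_fin M D (r + 1) f β b X m Λ T 0 n δ (by linarith) (Nat.cast_nonneg _) hβ16 hmR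
        hβm (by linarith) hβΛ hb0 hbβ hX0 hβX hβc hδ (Nat.cast_nonneg _) hTle
        (Nat.cast_nonneg _) (Or.inr (Or.inl h1))
    · exact Vcd2_fin M D (r + 1) f β b X m Λ T A n δ (by linarith) (Nat.cast_nonneg _) hβ16 hmR
        hβm (by linarith) hβΛ hb0 hbβ hX0 hβX hβc hδ (Nat.cast_nonneg _) hTle
        (Nat.cast_nonneg _) (Or.inr (Or.inr h1))
  by_cases hbig : ((m * t + 1 : ℕ) : ℝ) * (b * (K₁ * Λ) ^ K₁) < n
  · right
    have hPB : C.PathBound p (fun _ => m * (0 + t)) (fun _ => m * t + 1) := by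
      intro g
      refine ⟨Nat.le_add_left 1 _, fun h' _ => le_rfl, fun M' hg => ⟨?_, fun h' hh => ?_⟩⟩
      · show m * (0 + t) + 1 ≤ m * t + 1
        rw [zero_add]
      · exact absurd ((hSp g M' hg).2 h') hh
    obtain ⟨μ, U, hμ0, hμ1, hμS, hU, hspan⟩ := hK₁ n s m (r + 1) t C (fun _ => 0)
      (fun _ => m * t + 1) δ hm hd hPB hMaj (fun g M' hg => by
        refine ⟨(hSp g M' hg).1, ?_⟩
        rw [Nat.le_zero, card_eq_zero, filter_eq_empty_iff]
        intro h' _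
        rw [(hSp g M' hg).2 h']
        simp) hδ0.le (by rw [← hb]; exact ht1) (by rw [← hb, ← hΛ]; exact hbig)
    rcases hPac n s m r f p C μ U δ R h hn hδ0 hμ0 hμ1 hμS hU hdec hspan with hP | hP
    · left
      rw [← hb] at hP
      exact hP
    right
    obtain ⟨A, hAU, hA1, hA2⟩ := hP
    rw [← hb] at hA2
    refine ⟨A.card, ?_, ?_⟩
    · have h1 : (n : ℝ) ≤ ((4 * (m ^ 2 * (r + 1) + 1) * A.card : ℕ) : ℝ) := by
        exact_mod_cast hA1
      refine h1.trans (le_of_eq ?_)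
      rw [Nat.cast_mul, Nat.cast_mul, ← hb, Nat.cast_ofNat]
    set E := {e : Fin n × Fin n // e.1 ∈ A ∧ e.2 ∈ A ∧ e.1 ≠ e.2} with hE
    have hT1 : (2 * Λ + 1) ≤ δ / (2 * b) * T := by
      have h1 : (2 * Λ + 1) / (δ / (2 * b)) ≤ T := by
        rw [hT]
        exact Nat.le_ceil _
      rw [div_le_iff₀ hδb] at h1
      linarith
    have hcard : (Fintype.card E : ℝ) < Real.exp (δ / (2 * b) * T) := by
      have h1 : Fintype.card E ≤ n * n := by
        have := Fintype.card_subtype_le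
          (fun e : Fin n × Fin n => e.1 ∈ A ∧ e.2 ∈ A ∧ e.1 ≠ e.2)
        rwa [Fintype.card_prod, Fintype.card_fin] at this
      have h2 : (Fintype.card E : ℝ) ≤ n * n := by exact_mod_cast h1
      have h3 : Real.exp (2 * Λ) = (s + n) * (s + n) := by
        rw [two_mul, Real.exp_add, hΛ, Real.exp_log (by linarith)]
      have h4 : Real.exp (2 * Λ) < Real.exp (δ / (2 * b) * T) := by
        apply Real.exp_lt_exp.2
        linarith
      have h5 : (n : ℝ) * n ≤ (s + n) * (s + n) :=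
        mul_le_mul (by linarith) (by linarith) (by linarith) (by linarith)
      linarith
    obtain ⟨g, hg1, hg2⟩ := hSam (Fin s) E μ
      (fun e g => h g e.1.1 ≠ h g e.1.2) (δ / (2 * b)) T hμ0 hμ1
      (fun e => by
        refine (hA2 e.1.1 e.2.1 e.1.2 e.2.2.1 e.2.2.2).trans (le_of_eq ?_)
        apply sum_congr rfl
        intro g _
        by_cases hc : h g e.1.1 = h g e.1.2
        · rw [if_pos hc, if_neg (not_not.2 hc)]
        · rw [if_neg hc, if_pos hc]) hcard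
    have hsau := hSau (Fin n) A T m D (fun v i => h (g i) v) (by omega)
      (fun v hv v' hv' hne heq => by
        obtain ⟨i, hi⟩ := hg2 ⟨(v, v'), hv, hv', hne⟩
        exact hi (congrFun heq i))
      (fun i a => by
        by_contra hcon
        push Not at hcon
        apply hD
        refine ⟨fun j => g (i j), a, fun j => hμS _ (hg1 (i j)).ne', fun S => ?_⟩
        obtain ⟨v, -, hv⟩ := hcon S
        exact ⟨v, hv⟩)
    exact_mod_cast hsau
  · left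
    rw [not_lt] at hbig
    have h1 : (n : ℝ) ≤ ((m * t + 1 : ℕ) : ℝ) * (b * X) := by
      refine hbig.trans ?_
      apply mul_le_mul_of_nonneg_left _ (Nat.cast_nonneg _)
      exact mul_le_mul_of_nonneg_left hXK hb0.le
    have h2 : ((m * t + 1 : ℕ) : ℝ) ≤ (m * (2 * Λ + 1) + 1) + m * (δ * n / b) := by
      push_cast
      have h3 : (m : ℝ) * t ≤ m * (2 * Λ + δ * n / b + 1) :=
        mul_le_mul_of_nonneg_left (by linarith) (by linarith)
      linarith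
    have h4 : m * (δ * n / b) * (b * X) = n / 4 := by
      rw [hδ]
      field_simp
    refine h1.trans ?_
    have h6 := mul_le_mul_of_nonneg_right h2 (show 0 ≤ b * X by positivity)
    rw [add_mul, h4] at h6
    exact h6

end Pool.Agent.SPR
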